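import Mathlib
import Pool.Agent.Helper273.Brg.P_springer
import Pool.Agent.Y201.C3.Tri

/-! # Project CL: parity of degrees -/

set_option autoImplicit false

namespace Pool.Agent.R845.CL

open Polynomial Pool.Agent.Y201.C3

/-- a polynomial of odd degree has an irreducible factor of odd degree -/
theorem odd_factor {K : Type} [Field K] : ∀ (n : ℕ) (p : K[X]), p.natDegree = n → Odd n →
    ∃ q : K[X], Irreducible q ∧ q ∣ p ∧ Odd q.natDegree := by
  intro n
  induction n using Nat.strong_induction_on with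
  | _ n ih =>
    intro p hp hn
    have hp0 : p ≠ 0 := by
      rintro rfl
      rw [natDegree_zero] at hp
      rw [← hp] at hn
      exact absurd hn (by decide)
    have hpu : ¬ IsUnit p := by
      intro h
      rw [natDegree_eq_zero_of_isUnit h] at hp
      rw [← hp] at hn
      exact absurd hn (by decide)
    obtain ⟨q, hq, r, hr⟩ := WfDvdMonoid.exists_irreducible_factor hpu hp0
    by_cases hqo : Odd q.natDegree
    · exact ⟨q, hq, ⟨r, hr⟩, hqo⟩
    · have hr0 : r ≠ 0 := by
        rintro rfl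
        rw [mul_zero] at hr
        exact hp0 hr
      have hdeg : q.natDegree + r.natDegree = n := by
        rw [← hp, hr, natDegree_mul hq.ne_zero hr0]
      have hqp : 0 < q.natDegree := hq.natDegree_pos
      obtain ⟨q', h1, h2, h3⟩ := ih r.natDegree (by omega) r rfl (by
        rw [Nat.not_odd_iff_even] at hqo
        rw [← hdeg] at hn
        exact (Nat.odd_add'.1 hn).2 hqo)
      exact ⟨q', h1, by rw [hr]; exact Dvd.dvd.mul_left h2 q, h3⟩

/-- the degree of a divisor of an anisotropic form which has no common factor with the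
arguments -/
theorem even_of_aniso {K : Type} [Field K] {m : ℕ} (Q : Matrix (Fin m) (Fin m) K)
    (han : ∀ w : Fin m → K, ∑ i, ∑ j, Q i j * w i * w j = 0 → w = 0)
    (l : K[X]) (c : Fin m → K[X])
    (hcop : ∀ q : K[X], Irreducible q → q ∣ l → ∃ i, ¬ q ∣ c i)
    (hdvd : l ∣ ∑ i, ∑ j, C (Q i j) * c i * c j) : Even l.natDegree := by
  by_contra hodd
  rw [Nat.not_even_iff_odd] at hodd
  obtain ⟨q, hq, hql, hqo⟩ := odd_factor _ l rfl hodd
  exact Helper273.Sup.springer_poly Q han _ q hq hqo rfl c (hcop q hq hql) (hql.trans hdvd)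

/-- the leading coefficient of a trilinear form -/
theorem coeff_Bg {K : Type} [Field K] [Algebra ℂ K] {r : ℕ} (T : Fin r → Fin r → Fin r → ℂ)
    (x y z : Fin r → K[X]) (a b c : ℕ) (hx : ∀ i, (x i).natDegree ≤ a)
    (hy : ∀ i, (y i).natDegree ≤ b) (hz : ∀ i, (z i).natDegree ≤ c) :
    (Bg T x y z).coeff (a + b + c) =
      Bg T (fun i => (x i).coeff a) (fun i => (y i).coeff b) (fun i => (z i).coeff c) := by
  unfold Bg
  simp only [finsetSum_coeff]
  refine Finset.sum_congr rfl fun i _ => Finset.sum_congr rfl fun j _ =>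
    Finset.sum_congr rfl fun k _ => ?_
  have h1 : (algebraMap ℂ K[X] (T i j k)) = C (algebraMap ℂ K (T i j k)) := rfl
  have h2 : (C (algebraMap ℂ K (T i j k)) * x i).natDegree ≤ a :=
    (natDegree_C_mul_le _ _).trans (hx i)
  rw [h1, coeff_mul_add_eq_of_natDegree_le ((natDegree_mul_le).trans (add_le_add h2 (hy j))) (hz k),
    coeff_mul_add_eq_of_natDegree_le h2 (hy j), coeff_C_mul]

theorem natDegree_Bg {K : Type} [Field K] [Algebra ℂ K] {r : ℕ} (T : Fin r → Fin r → Fin r → ℂ)
    (x y z : Fin r → K[X]) (a b c : ℕ) (hx : ∀ i, (x i).natDegree ≤ a)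
    (hy : ∀ i, (y i).natDegree ≤ b) (hz : ∀ i, (z i).natDegree ≤ c) :
    (Bg T x y z).natDegree ≤ a + b + c := by
  unfold Bg
  refine natDegree_sum_le_of_forall_le _ _ fun i _ => natDegree_sum_le_of_forall_le _ _ fun j _ =>
    natDegree_sum_le_of_forall_le _ _ fun k _ => ?_
  have h1 : (algebraMap ℂ K[X] (T i j k)) = C (algebraMap ℂ K (T i j k)) := rfl
  rw [h1]
  exact natDegree_mul_le.trans (add_le_add (natDegree_mul_le.trans (add_le_add
    ((natDegree_C_mul_le _ _).trans (hx i)) (hy j))) (hz k))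

end Pool.Agent.R845.CL
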