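import Mathlib
import Pool.Agent.R845.CL.Par
import Pool.Agent.R845.E3.Cc

/-! # Project CL: curves on a quadric surface which meet the planes through a line once -/

set_option autoImplicit false

namespace Pool.Agent.R845.CL

open Polynomial Pool.Agent.Y201.C3 Pool.Agent.R845.E3

noncomputable section

/-- the points of the plane -/
def em {R : Type} [CommRing R] (u : Fin 3 → R) : Fin 6 → R := ![u 0, u 1, 0, 0, 0, u 2]

/-- the indices of the plane -/
def pl : Fin 3 → Fin 6 := ![0, 1, 5]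

/-- the cubic contains the plane -/
def PlaneT (T : Fin 6 → Fin 6 → Fin 6 → ℂ) : Prop := ∀ i j k : Fin 3, T (pl i) (pl j) (pl k) = 0

theorem em_or {R : Type} [CommRing R] (i : Fin 6) :
    (∃ a, i = pl a) ∨ ∀ u : Fin 3 → R, em u i = 0 := by
  fin_cases i
  · exact Or.inl ⟨0, rfl⟩
  · exact Or.inl ⟨1, rfl⟩
  · exact Or.inr fun _ => rfl
  · exact Or.inr fun _ => rfl
  · exact Or.inr fun _ => rfl
  · exact Or.inl ⟨2, rfl⟩

theorem em_zero {T : Fin 6 → Fin 6 → Fin 6 → ℂ} (hP : PlaneT T) {R : Type} [CommRing R]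
    [Algebra ℂ R] (u v w : Fin 3 → R) : Bg T (em u) (em v) (em w) = 0 := by
  unfold Bg
  refine Finset.sum_eq_zero fun i _ => Finset.sum_eq_zero fun j _ =>
    Finset.sum_eq_zero fun k _ => ?_
  obtain ⟨a, rfl⟩ | h := em_or (R := R) i
  swap
  · rw [h, mul_zero, zero_mul, zero_mul]
  obtain ⟨b, rfl⟩ | h := em_or (R := R) j
  swap
  · rw [h, mul_zero, zero_mul]
  obtain ⟨c, rfl⟩ | h := em_or (R := R) k
  swap
  · rw [h, mul_zero]
  rw [hP, map_zero, zero_mul, zero_mul, zero_mul]

theorem em_map {R R' : Type} [CommRing R] [CommRing R'] (φ : R →+* R') (u : Fin 3 → R) :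
    (fun i => φ (em u i)) = em fun a => φ (u a) := by
  funext i
  fin_cases i
  · rfl
  · rfl
  · exact map_zero φ
  · exact map_zero φ
  · exact map_zero φ
  · rfl

/-- the cubic at a point of the space spanned by the plane and `h` -/
theorem Bg_cube {T : Fin 6 → Fin 6 → Fin 6 → ℂ} (hT : SymG T) (hP : PlaneT T) {R : Type}
    [CommRing R] [Algebra ℂ R] (u : Fin 3 → R) (l : R) (h : Fin 6 → R) :
    Bg T (fun i => em u i + l * h i) (fun i => em u i + l * h i) (fun i => em u i + l * h i) =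
      l * (3 * Bg T (em u) (em u) h + 3 * l * Bg T (em u) h h + l ^ 2 * Bg T h h h) := by
  have h1 := Bg_span3 hT (em u) h h 1 l 0
  simp only [one_mul, zero_mul, add_zero] at h1
  rw [h1, em_zero hP]
  ring

theorem Bg_two {T : Fin 6 → Fin 6 → Fin 6 → ℂ} (hT : SymG T) {R : Type}
    [CommRing R] [Algebra ℂ R] (a b z : Fin 6 → R) (l : R) :
    Bg T (fun i => a i + l * b i) (fun i => a i + l * b i) z =
      Bg T a a z + 2 * l * Bg T a b z + l ^ 2 * Bg T b b z := by
  rw [Bg_add1 T a (fun i => l * b i), Bg_add2 T a a (fun i => l * b i),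
    Bg_add2 T (fun i => l * b i) a (fun i => l * b i), Bg_smul1, Bg_smul1, Bg_smul2, Bg_smul2,
    Bg_swap12 hT b a z]
  ring

/-- a line through two points of a quadric surface of the fibration which is tangent in the first
point is contained in the cubic -/
theorem line_in {T : Fin 6 → Fin 6 → Fin 6 → ℂ} (hT : SymG T) (hP : PlaneT T) {E : Type}
    [Field E] [Algebra ℂ E] (a u : Fin 3 → E) (x2 l : E) (h : Fin 6 → E) (hx2 : x2 ≠ 0)
    (h1 : 3 * Bg T (em u) (em u) h + 3 * l * Bg T (em u) h h + l ^ 2 * Bg T h h h = 0)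
    (h2 : 3 * Bg T (em a) (em a) h + 3 * x2 * Bg T (em a) h h + x2 ^ 2 * Bg T h h h = 0)
    (h3 : Bg T (fun i => em a i + x2 * h i) (fun i => em a i + x2 * h i)
      (fun i => em u i + l * h i) = 0) :
    MvPolynomial.aeval (fun j => C (em a j + x2 * h j) + X * C (em u j + l * h j))
      (Bg T MvPolynomial.X MvPolynomial.X MvPolynomial.X : MvPolynomial (Fin 6) ℂ) = 0 := by
  have : CharZero E := charZero_of_injective_algebraMap (algebraMap ℂ E).injective
  set x : Fin 6 → E := fun i => em a i + x2 * h i with hx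
  set v : Fin 6 → E := fun i => em u i + l * h i with hv
  have hxxx : Bg T x x x = 0 := by
    rw [hx, Bg_cube hT hP, h2, mul_zero]
  have hvvv : Bg T v v v = 0 := by
    rw [hv, Bg_cube hT hP, h1, mul_zero]
  have hxvv : Bg T x v v = 0 := by
    have h4 : Bg T x x v = l * Bg T (em a) (em a) h + 2 * x2 * Bg T (em a) (em u) h +
        2 * x2 * l * Bg T (em a) h h + x2 ^ 2 * Bg T (em u) h h + x2 ^ 2 * l * Bg T h h h := by
      rw [hx, Bg_two hT, hv]
      simp only [Bg_add3 T _ _ (em u) (fun i => l * h i), Bg_smul3, em_zero hP]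
      rw [Bg_swap23 hT (em a) h (em u), Bg_swap23 hT h h (em u), Bg_swap12 hT h (em u) h]
      ring
    have h5 : Bg T x v v = 2 * l * Bg T (em a) (em u) h + l ^ 2 * Bg T (em a) h h +
        x2 * Bg T (em u) (em u) h + 2 * x2 * l * Bg T (em u) h h + x2 * l ^ 2 * Bg T h h h := by
      rw [Bg_swap12 hT, Bg_swap23 hT, hv, Bg_two hT, hx]
      simp only [Bg_add3 T _ _ (em a) (fun i => x2 * h i), Bg_smul3, em_zero hP]
      rw [Bg_swap12 hT (em u) h (em a), Bg_swap23 hT h (em u) (em a),
        Bg_swap12 hT h (em a) (em u), Bg_swap23 hT (em a) h (em u), Bg_swap23 hT h h (em a),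
        Bg_swap12 hT h (em a) h]
      ring
    have h6 : Bg T x x v = 0 := h3
    rw [h4] at h6
    have h7 : x2 * Bg T x v v = 0 := by
      rw [h5]
      linear_combination l * h6 + x2 ^ 2 / 3 * h1 - l ^ 2 / 3 * h2
    exact (mul_eq_zero.1 h7).resolve_left hx2
  rw [aeval_frmG]
  have h8 := Bg_span3 hT (fun j => C (x j)) (fun j => C (v j)) (fun j => C (v j)) 1 X (0 : E[X])
  simp only [one_mul, zero_mul, add_zero] at h8
  have hC : ∀ a b c : Fin 6 → E, Bg T (fun j => C (a j)) (fun j => C (b j)) (fun j => C (c j)) =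
      (C (Bg T a b c) : E[X]) := by
    intro a b c
    exact (map_Bg (IsScalarTower.toAlgHom ℂ E E[X]) T a b c).symm
  rw [h8, hC, hC, hC, hC, hxxx, hvvv, hxvv, show Bg T x x v = 0 from h3]
  simp

/-- removing common factors -/
theorem prim {K : Type} [Field K] (c0 c1 l : K[X]) (hl : l ≠ 0) :
    ∃ g c0' c1' l' a b c : K[X], g ≠ 0 ∧ c0 = g * c0' ∧ c1 = g * c1' ∧ l = g * l' ∧
      a * c0' + b * c1' + c * l' = 1 := by
  classical
  set d := EuclideanDomain.gcd c1 l with hd
  set g := EuclideanDomain.gcd c0 d with hg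
  obtain ⟨c0', h0⟩ := EuclideanDomain.gcd_dvd_left c0 d
  obtain ⟨d', h1⟩ := EuclideanDomain.gcd_dvd_right c0 d
  obtain ⟨c1', h2⟩ := EuclideanDomain.gcd_dvd_left c1 l
  obtain ⟨l', h3⟩ := EuclideanDomain.gcd_dvd_right c1 l
  rw [← hg] at h0 h1
  rw [← hd] at h2 h3
  have hd0 : d ≠ 0 := by
    intro h
    rw [h, zero_mul] at h3
    exact hl h3
  have hg0 : g ≠ 0 := by
    intro h
    rw [h, zero_mul] at h1
    exact hd0 h1
  have e1 := EuclideanDomain.gcd_eq_gcd_ab c0 d
  have e2 := EuclideanDomain.gcd_eq_gcd_ab c1 l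
  rw [← hg] at e1
  rw [← hd] at e2
  refine ⟨g, c0', d' * c1', d' * l', EuclideanDomain.gcdA c0 d,
    EuclideanDomain.gcdB c0 d * EuclideanDomain.gcdA c1 l,
    EuclideanDomain.gcdB c0 d * EuclideanDomain.gcdB c1 l, hg0, h0, ?_, ?_, ?_⟩
  · rw [← mul_assoc, ← h1, ← h2]
  · rw [← mul_assoc, ← h1, ← h3]
  · apply mul_left_cancel₀ hg0
    rw [mul_one]
    have e3 : c1' * EuclideanDomain.gcdA c1 l + l' * EuclideanDomain.gcdB c1 l = 1 := by
      apply mul_left_cancel₀ hd0
      rw [mul_one, mul_add, ← mul_assoc, ← mul_assoc, ← h2, ← h3]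
      exact e2.symm
    conv_rhs => rw [e1]
    calc _ = (g * c0') * EuclideanDomain.gcdA c0 d + (g * d') * EuclideanDomain.gcdB c0 d *
          (c1' * EuclideanDomain.gcdA c1 l + l' * EuclideanDomain.gcdB c1 l) := by ring
      _ = _ := by rw [e3, mul_one, ← h0, ← h1]

theorem bin {T : Fin 6 → Fin 6 → Fin 6 → ℂ} (hT : SymG T) {R : Type} [CommRing R]
    [Algebra ℂ R] (w : Fin 2 → R) (z : Fin 6 → R) :
    Bg T (em ![w 0, w 1, 0]) (em ![w 0, w 1, 0]) z =
      ∑ i, ∑ j, Bg T (em ((![![1, 0, 0], ![0, 1, 0]] : Fin 2 → Fin 3 → R) i))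
        (em ((![![1, 0, 0], ![0, 1, 0]] : Fin 2 → Fin 3 → R) j)) z * w i * w j := by
  have h1 : em ![w 0, w 1, 0] = fun i => w 0 * em ![(1 : R), 0, 0] i + w 1 * em ![0, (1 : R), 0] i := by
    funext i
    fin_cases i <;> simp [em]
  rw [h1, Fin.sum_univ_two, Fin.sum_univ_two, Fin.sum_univ_two]
  change _ = Bg T (em ![(1 : R), 0, 0]) (em ![(1 : R), 0, 0]) z * w 0 * w 0 +
    Bg T (em ![(1 : R), 0, 0]) (em ![(0 : R), 1, 0]) z * w 0 * w 1 +
    (Bg T (em ![(0 : R), 1, 0]) (em ![(1 : R), 0, 0]) z * w 1 * w 0 +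
    Bg T (em ![(0 : R), 1, 0]) (em ![(0 : R), 1, 0]) z * w 1 * w 1)
  rw [Bg_two hT (fun i => w 0 * em ![(1 : R), 0, 0] i) (em ![(0 : R), 1, 0]) z (w 1)]
  simp only [Bg_smul1, Bg_smul2]
  rw [Bg_swap12 hT (em ![(0 : R), 1, 0]) (em ![(1 : R), 0, 0])]
  ring

theorem Bg_C {T : Fin 6 → Fin 6 → Fin 6 → ℂ} {K : Type} [Field K] [Algebra ℂ K]
    (a b c : Fin 6 → K) : Bg T (fun j => C (a j)) (fun j => C (b j)) (fun j => C (c j)) =
      (C (Bg T a b c) : K[X]) :=
  (map_Bg (IsScalarTower.toAlgHom ℂ K K[X]) T a b c).symm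

/-- the highest coefficients -/
theorem top_coeff {T : Fin 6 → Fin 6 → Fin 6 → ℂ} {K : Type}
    [Field K] [Algebra ℂ K] (h : Fin 6 → K) (c0 c1 l : K[X]) (E : ℕ) (hlE : l.natDegree + 1 ≤ E)
    (h0 : c0.natDegree ≤ E) (h1 : c1.natDegree ≤ E)
    (hrel : 3 * Bg T (em ![c0, c1, X * l]) (em ![c0, c1, X * l]) (fun i => C (h i)) +
      3 * l * Bg T (em ![c0, c1, X * l]) (fun i => C (h i)) (fun i => C (h i)) +
      l ^ 2 * Bg T (fun i => C (h i)) (fun i => C (h i)) (fun i => C (h i)) = 0) :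
    Bg T (em ![c0.coeff E, c1.coeff E, l.coeff (E - 1)])
      (em ![c0.coeff E, c1.coeff E, l.coeff (E - 1)]) h = 0 := by
  have : CharZero K := charZero_of_injective_algebraMap (algebraMap ℂ K).injective
  have hXl : (X * l).natDegree ≤ E := by
    refine natDegree_mul_le.trans ?_
    rw [natDegree_X]
    omega
  have hu : ∀ i, (em ![c0, c1, X * l] i).natDegree ≤ E := by
    intro i
    fin_cases i
    · exact h0
    · exact h1
    · exact (natDegree_zero (R := K)).le.trans (Nat.zero_le _)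
    · exact (natDegree_zero (R := K)).le.trans (Nat.zero_le _)
    · exact (natDegree_zero (R := K)).le.trans (Nat.zero_le _)
    · exact hXl
  have hC : ∀ i, (C (h i)).natDegree ≤ 0 := fun i => (natDegree_C _).le
  have h2 := congrArg (fun p => p.coeff (E + E + 0)) hrel
  simp only [coeff_add, coeff_zero] at h2
  have e1 : (3 * Bg T (em ![c0, c1, X * l]) (em ![c0, c1, X * l]) (fun i => C (h i))).coeff
      (E + E + 0) = 3 * Bg T (em ![c0.coeff E, c1.coeff E, l.coeff (E - 1)])
      (em ![c0.coeff E, c1.coeff E, l.coeff (E - 1)]) h := by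
    have h3 : (3 : K[X]) = C 3 := by rw [map_ofNat]
    rw [h3, coeff_C_mul, coeff_Bg T _ _ _ E E 0 hu hu hC]
    have h4 : (fun i => (em ![c0, c1, X * l] i).coeff E) =
        em ![c0.coeff E, c1.coeff E, l.coeff (E - 1)] := by
      funext i
      fin_cases i
      · rfl
      · rfl
      · exact coeff_zero E
      · exact coeff_zero E
      · exact coeff_zero E
      · obtain ⟨e, rfl⟩ : ∃ e, E = e + 1 := ⟨E - 1, by omega⟩
        exact coeff_X_mul l e
    rw [h4]
    simp only [coeff_C_zero]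
  have e2 : (3 * l * Bg T (em ![c0, c1, X * l]) (fun i => C (h i)) (fun i => C (h i))).coeff
      (E + E + 0) = 0 := by
    apply coeff_eq_zero_of_natDegree_lt
    have h3 : (3 : K[X]) = C 3 := by rw [map_ofNat]
    have h4 := natDegree_Bg T (em ![c0, c1, X * l]) (fun i => C (h i)) (fun i => C (h i)) E 0 0
      hu hC hC
    have h5 : (3 * l).natDegree ≤ l.natDegree := by
      rw [h3]
      exact natDegree_C_mul_le _ _
    refine (natDegree_mul_le.trans (add_le_add h5 h4)).trans_lt ?_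
    omega
  have e3 : (l ^ 2 * Bg T (fun i => C (h i)) (fun i => C (h i)) (fun i => C (h i))).coeff
      (E + E + 0) = 0 := by
    apply coeff_eq_zero_of_natDegree_lt
    have h4 := natDegree_Bg T (fun i => C (h i)) (fun i => C (h i)) (fun i => C (h i)) 0 0 0
      hC hC hC
    have h5 : (l ^ 2).natDegree ≤ 2 * l.natDegree := natDegree_pow_le
    refine (natDegree_mul_le.trans (add_le_add h5 h4)).trans_lt ?_
    omega
  rw [e1, e2, e3, add_zero, add_zero] at h2
  exact (mul_eq_zero.1 h2).resolve_left (by norm_num)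

/-- the curve over the base field -/
theorem klevel {T : Fin 6 → Fin 6 → Fin 6 → ℂ} (hT : SymG T) (hP : PlaneT T) {K : Type}
    [Field K] [Algebra ℂ K] (h : Fin 6 → K)
    (han : ∀ w : Fin 2 → K, Bg T (em ![w 0, w 1, 0]) (em ![w 0, w 1, 0]) h = 0 → w = 0)
    (c0 c1 l : K[X]) (hl : l ≠ 0)
    (hrel : Bg T (fun i => em ![c0, c1, X * l] i + l * C (h i))
      (fun i => em ![c0, c1, X * l] i + l * C (h i))
      (fun i => em ![c0, c1, X * l] i + l * C (h i)) = 0) :
    ∃ g c0' c1' l' a b c : K[X], g ≠ 0 ∧ c0 = g * c0' ∧ c1 = g * c1' ∧ l = g * l' ∧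
      a * c0' + b * c1' + c * l' = 1 ∧ l' ≠ 0 ∧ Even l'.natDegree ∧
      c0'.natDegree ≤ l'.natDegree + 1 ∧ c1'.natDegree ≤ l'.natDegree + 1 ∧
      3 * Bg T (em ![c0', c1', X * l']) (em ![c0', c1', X * l']) (fun i => C (h i)) +
        3 * l' * Bg T (em ![c0', c1', X * l']) (fun i => C (h i)) (fun i => C (h i)) +
        l' ^ 2 * Bg T (fun i => C (h i)) (fun i => C (h i)) (fun i => C (h i)) = 0 ∧
      Bg T (em ![c0'.coeff (l'.natDegree + 1), c1'.coeff (l'.natDegree + 1), l'.coeff l'.natDegree])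
        (em ![c0'.coeff (l'.natDegree + 1), c1'.coeff (l'.natDegree + 1), l'.coeff l'.natDegree])
        h = 0 := by
  have : CharZero K := charZero_of_injective_algebraMap (algebraMap ℂ K).injective
  obtain ⟨g, c0', c1', l', a, b, c, hg, h0, h1, h2, hbez⟩ := prim c0 c1 l hl
  have hl' : l' ≠ 0 := by
    rintro rfl
    rw [mul_zero] at h2
    exact hl h2
  have hz : (fun i => em ![c0, c1, X * l] i + l * C (h i)) =
      fun i => g * (em ![c0', c1', X * l'] i + l' * C (h i)) := by
    funext i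
    fin_cases i
    · change c0 + l * C (h 0) = g * (c0' + l' * C (h 0))
      rw [h0, h2]
      ring
    · change c1 + l * C (h 1) = g * (c1' + l' * C (h 1))
      rw [h1, h2]
      ring
    · change 0 + l * C (h 2) = g * (0 + l' * C (h 2))
      rw [h2]
      ring
    · change 0 + l * C (h 3) = g * (0 + l' * C (h 3))
      rw [h2]
      ring
    · change 0 + l * C (h 4) = g * (0 + l' * C (h 4))
      rw [h2]
      ring
    · change X * l + l * C (h 5) = g * (X * l' + l' * C (h 5))
      rw [h2]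
      ring
  rw [hz] at hrel
  simp only [Bg_smul1, Bg_smul2, Bg_smul3] at hrel
  have h3 := (mul_eq_zero.1 ((mul_eq_zero.1 ((mul_eq_zero.1 hrel).resolve_left hg)).resolve_left
    hg)).resolve_left hg
  rw [Bg_cube hT hP] at h3
  have hrel' := (mul_eq_zero.1 h3).resolve_left hl'
  -- the degrees
  have hdeg : c0'.natDegree ≤ l'.natDegree + 1 ∧ c1'.natDegree ≤ l'.natDegree + 1 := by
    by_contra hcon
    set E := max c0'.natDegree c1'.natDegree with hE
    have hE1 : l'.natDegree + 1 < E := by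
      by_contra h4
      apply hcon
      have h5 := le_max_left c0'.natDegree c1'.natDegree
      have h6 := le_max_right c0'.natDegree c1'.natDegree
      omega
    have h4 := top_coeff h c0' c1' l' E (by omega) (le_max_left _ _) (le_max_right _ _) hrel'
    have h5 : l'.coeff (E - 1) = 0 := coeff_eq_zero_of_natDegree_lt (by omega)
    rw [h5] at h4
    have h6 := han ![c0'.coeff E, c1'.coeff E] h4
    have h7 : c0'.coeff E = 0 := congrFun h6 0
    have h8 : c1'.coeff E = 0 := congrFun h6 1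
    rcases max_choice c0'.natDegree c1'.natDegree with h9 | h9
    · rw [hE, h9] at h7
      have h10 : c0' = 0 := leadingCoeff_eq_zero.1 h7
      have h11 : c0'.natDegree = 0 := by rw [h10, natDegree_zero]
      omega
    · rw [hE, h9] at h8
      have h10 : c1' = 0 := leadingCoeff_eq_zero.1 h8
      have h11 : c1'.natDegree = 0 := by rw [h10, natDegree_zero]
      omega
  refine ⟨g, c0', c1', l', a, b, c, hg, h0, h1, h2, hbez, hl', ?_, hdeg.1, hdeg.2, hrel', ?_⟩
  · -- parity
    refine even_of_aniso (Matrix.of fun i j : Fin 2 =>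
      Bg T (em ((![![1, 0, 0], ![0, 1, 0]] : Fin 2 → Fin 3 → K) i))
        (em ((![![1, 0, 0], ![0, 1, 0]] : Fin 2 → Fin 3 → K) j)) h) ?_ l' ![c0', c1'] ?_ ?_
    · intro w hw
      apply han
      rw [bin hT]
      exact hw
    · intro q hq hql
      by_contra hcon
      push Not at hcon
      have h4 : q ∣ 1 := by
        rw [← hbez]
        exact dvd_add (dvd_add (Dvd.dvd.mul_left (hcon 0) a) (Dvd.dvd.mul_left (hcon 1) b))
          (Dvd.dvd.mul_left hql c)
      exact hq.not_isUnit (isUnit_of_dvd_one h4)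
    · have h4 : (∑ i, ∑ j, C ((Matrix.of fun i j : Fin 2 =>
          Bg T (em ((![![1, 0, 0], ![0, 1, 0]] : Fin 2 → Fin 3 → K) i))
            (em ((![![1, 0, 0], ![0, 1, 0]] : Fin 2 → Fin 3 → K) j)) h) i j) *
          (![c0', c1'] : Fin 2 → K[X]) i * (![c0', c1'] : Fin 2 → K[X]) j) =
          Bg T (em ![c0', c1', 0]) (em ![c0', c1', 0]) (fun i => C (h i)) := by
        have h5 := bin hT (![c0', c1'] : Fin 2 → K[X]) (fun i => C (h i))
        refine Eq.trans ?_ h5.symm
        refine Finset.sum_congr rfl fun i _ => Finset.sum_congr rfl fun j _ => ?_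
        congr 2
        rw [Matrix.of_apply, ← Bg_C]
        congr 1
        · funext a
          fin_cases i <;> fin_cases a <;> simp [em]
        · funext a
          fin_cases j <;> fin_cases a <;> simp [em]
      rw [h4]
      have h5 : em ![c0', c1', X * l'] =
          fun i => em ![c0', c1', 0] i + l' * em ![0, 0, X] i := by
        funext i
        fin_cases i <;> simp [em, mul_comm]
      have h6 : 3 * Bg T (em ![c0', c1', 0]) (em ![c0', c1', 0]) (fun i => C (h i)) =
          l' * (-(6 * Bg T (em ![c0', c1', 0]) (em ![0, 0, X]) (fun i => C (h i)) +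
            3 * l' * Bg T (em ![0, 0, X]) (em ![0, 0, X]) (fun i => C (h i)) +
            3 * Bg T (em ![c0', c1', X * l']) (fun i => C (h i)) (fun i => C (h i)) +
            l' * Bg T (fun i => C (h i)) (fun i => C (h i)) (fun i => C (h i)))) := by
        have h7 : Bg T (em ![c0', c1', X * l']) (em ![c0', c1', X * l']) (fun i => C (h i)) =
            Bg T (em ![c0', c1', 0]) (em ![c0', c1', 0]) (fun i => C (h i)) +
            2 * l' * Bg T (em ![c0', c1', 0]) (em ![0, 0, X]) (fun i => C (h i)) +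
            l' ^ 2 * Bg T (em ![0, 0, X]) (em ![0, 0, X]) (fun i => C (h i)) := by
          rw [h5, Bg_two hT]
        rw [h7] at hrel'
        linear_combination hrel'
      have h7 : (3 : K[X]) = C 3 := by rw [map_ofNat]
      rw [h7] at h6
      have h8 : l' ∣ C 3 * Bg T (em ![c0', c1', 0]) (em ![c0', c1', 0]) (fun i => C (h i)) :=
        ⟨_, h6⟩
      exact (IsUnit.dvd_mul_left (isUnit_C.2 (isUnit_iff_ne_zero.2 (by norm_num)))).1 h8
  · have h4 := top_coeff h c0' c1' l' (l'.natDegree + 1) le_rfl hdeg.1 hdeg.2 hrel'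
    rwa [Nat.add_sub_cancel] at h4

end

end Pool.Agent.R845.CL
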