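import Mathlib
import Pool.Agent.R845.CL.Kl
import Pool.Agent.R845.T2.Cubic
import Pool.Agent.R845.T2.Div
import Pool.Agent.R845.T2.Fd
import Pool.Agent.R845.T2.Fi
import Pool.Agent.R845.T2.Nt
import Pool.Agent.R845.E3.Stm

/-! # Project CL: the generic point and a curve which meets the planes through a line once -/

set_option autoImplicit false

namespace Pool.Agent.R845.CL

open Polynomial Pool.Agent.Y201.C3 Pool.Agent.R845.E3 Pool.Agent.R845.T2 Pool.Agent.TH314.PD

noncomputable section

theorem odd_ext {r : ℕ} {M M' : Type} [Field M] [Algebra ℂ M] [Field M'] [Algebra ℂ M']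
    [Algebra M M'] [IsScalarTower ℂ M M'] (x : Fin r → M)
    (h1 : Odd (Module.finrank (ratioField x) M)) (h2 : Odd (Module.finrank M M')) :
    Odd (Module.finrank (ratioField fun i => algebraMap M M' (x i)) M') := by
  set φ : M →ₐ[ℂ] M' := IsScalarTower.toAlgHom ℂ M M' with hφ
  have h3 : (ratioField fun i => algebraMap M M' (x i)) = (ratioField x).map φ := by
    unfold ratioField
    rw [IntermediateField.adjoin_map]
    congr 1
    ext z
    constructor
    · rintro ⟨i, j, rfl⟩
      exact ⟨x i / x j, ⟨i, j, rfl⟩, map_div₀ _ _ _⟩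
    · rintro ⟨_, ⟨i, j, rfl⟩, rfl⟩
      exact ⟨i, j, map_div₀ _ _ _⟩
  rw [h3]
  have h4 : Module.finrank (ratioField x) M' = Module.finrank ((ratioField x).map φ) M' := by
    refine Algebra.finrank_eq_of_equiv_equiv ((ratioField x).equivMap φ).toRingEquiv
      (RingEquiv.refl M') ?_
    ext z
    rfl
  rw [← h4, ← Module.finrank_mul_finrank (ratioField x) M M']
  exact h1.mul h2

theorem gp_ext {r : ℕ} {M M' : Type} [Field M] [Algebra ℂ M] [Field M'] [Algebra ℂ M']
    [Algebra M M'] [IsScalarTower ℂ M M'] {F : MvPolynomial (Fin r) ℂ} (x : Fin r → M)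
    (hG : Gp F x) : Gp F fun i => algebraMap M M' (x i) := by
  have h1 : ∀ H : MvPolynomial (Fin r) ℂ, MvPolynomial.aeval (fun i => algebraMap M M' (x i)) H =
      algebraMap M M' (MvPolynomial.aeval x H) := by
    intro H
    exact (MvPolynomial.comp_aeval_apply (φ := IsScalarTower.toAlgHom ℂ M M') x H).symm
  refine ⟨by rw [h1, hG.1, map_zero], fun e H hH h0 => hG.2 e H hH ?_⟩
  rw [h1] at h0
  exact (algebraMap M M').injective (h0.trans (map_zero _).symm)

/-- the generic point of a smooth cubic is not on a line of the cubic over an extension of odd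
degree -/
theorem no_line {F : MvPolynomial (Fin 6) ℂ} (hF : F.IsHomogeneous 3) (hsm : Sm F)
    {M : Type} [Field M] [Algebra ℂ M] (x : Fin 6 → M) (hG : Gp F x)
    (hodd : Odd (Module.finrank (ratioField x) M)) (v : Fin 6 → M)
    (hv : LinearIndependent M ![x, v])
    (h : MvPolynomial.aeval (fun j => C (x j) + X * C (v j)) F = 0) : False := by
  refine tangent (tan_of div (nt Pool.Agent.Y201.LI.hT1) fi fd) (r := 5) hF hsm x hG.1 hG.2 hodd
    v hv 0 0 0 ?_
  rw [h]
  simp

theorem indep_of {M : Type} [Field M] (x v : Fin 6 → M) (i : Fin 6) (hx : x i ≠ 0)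
    (h : ¬ ∃ κ : M, v = fun j => κ * x j) : LinearIndependent M ![x, v] := by
  rw [LinearIndependent.pair_iff]
  intro a b hab
  by_cases hb : b = 0
  · subst hb
    have h1 := congrFun hab i
    simp only [Pi.add_apply, Pi.smul_apply, smul_eq_mul, zero_mul, add_zero, Pi.zero_apply] at h1
    exact ⟨(mul_eq_zero.1 h1).resolve_right hx, rfl⟩
  · exfalso
    apply h
    refine ⟨-(a / b), ?_⟩
    funext j
    have h1 := congrFun hab j
    simp only [Pi.add_apply, Pi.smul_apply, smul_eq_mul, Pi.zero_apply] at h1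
    field_simp
    linear_combination h1

theorem mlevel {T : Fin 6 → Fin 6 → Fin 6 → ℂ} (hT : SymG T) (hP : PlaneT T)
    (hF : (Bg T MvPolynomial.X MvPolynomial.X MvPolynomial.X :
      MvPolynomial (Fin 6) ℂ).IsHomogeneous 3)
    (hsm : Sm (Bg T MvPolynomial.X MvPolynomial.X MvPolynomial.X : MvPolynomial (Fin 6) ℂ))
    {K M : Type} [Field K] [Algebra ℂ K] [Field M] [Algebra ℂ M] [Algebra K M]
    [IsScalarTower ℂ K M] (x : Fin 6 → M)
    (hG : Gp (Bg T MvPolynomial.X MvPolynomial.X MvPolynomial.X : MvPolynomial (Fin 6) ℂ) x)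
    (hodd : Odd (Module.finrank (ratioField x) M)) (hx2 : x 2 ≠ 0) (h3 h4 : K)
    (hx3 : x 3 = x 2 * algebraMap K M h3) (hx4 : x 4 = x 2 * algebraMap K M h4)
    (han : ∀ w : Fin 2 → K, Bg T (em ![w 0, w 1, 0]) (em ![w 0, w 1, 0]) ![0, 0, 1, h3, h4, 0] = 0 →
      w = 0)
    (c0 c1 l : K[X]) (hl : l ≠ 0)
    (hrel : Bg T (fun i => em ![c0, c1, X * l] i + l * C ((![0, 0, 1, h3, h4, 0] : Fin 6 → K) i))
      (fun i => em ![c0, c1, X * l] i + l * C ((![0, 0, 1, h3, h4, 0] : Fin 6 → K) i))
      (fun i => em ![c0, c1, X * l] i + l * C ((![0, 0, 1, h3, h4, 0] : Fin 6 → K) i)) = 0)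
    (hne : aeval (x 5 / x 2) c0 * x 2 ≠ x 0 * aeval (x 5 / x 2) l) : False := by
  have : CharZero M := charZero_of_injective_algebraMap (algebraMap ℂ M).injective
  set h : Fin 6 → K := ![0, 0, 1, h3, h4, 0] with hh
  obtain ⟨g, c0', c1', l', a, b, c, hg, e0, e1, e2, hbez, hl', hev, hd0, hd1, hrel', htop⟩ :=
    klevel hT hP h han c0 c1 l hl hrel
  have hxe : x = fun i => em ![x 0, x 1, x 5] i + x 2 * algebraMap K M (h i) := by
    funext i
    fin_cases i
    · change x 0 = x 0 + x 2 * algebraMap K M 0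
      rw [map_zero, mul_zero, add_zero]
    · change x 1 = x 1 + x 2 * algebraMap K M 0
      rw [map_zero, mul_zero, add_zero]
    · change x 2 = 0 + x 2 * algebraMap K M 1
      rw [map_one, mul_one, zero_add]
    · change x 3 = 0 + x 2 * algebraMap K M h3
      rw [zero_add, hx3]
    · change x 4 = 0 + x 2 * algebraMap K M h4
      rw [zero_add, hx4]
    · change x 5 = x 5 + x 2 * algebraMap K M 0
      rw [map_zero, mul_zero, add_zero]
  have hxx : Bg T x x x = 0 := by
    rw [← aeval_frmG]
    exact hG.1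
  have hxq : 3 * Bg T (em ![x 0, x 1, x 5]) (em ![x 0, x 1, x 5]) (fun i => algebraMap K M (h i)) +
      3 * x 2 * Bg T (em ![x 0, x 1, x 5]) (fun i => algebraMap K M (h i))
        (fun i => algebraMap K M (h i)) +
      x 2 ^ 2 * Bg T (fun i => algebraMap K M (h i)) (fun i => algebraMap K M (h i))
        (fun i => algebraMap K M (h i)) = 0 := by
    rw [hxe, Bg_cube hT hP] at hxx
    exact (mul_eq_zero.1 hxx).resolve_left hx2
  -- the polynomial
  set n := l'.natDegree with hn
  set mp : K[X] → M[X] := fun p => p.map (algebraMap K M) with hmp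
  set z : Fin 6 → M[X] := fun i => em ![mp c0', mp c1', X * mp l'] i +
    mp l' * C (algebraMap K M (h i)) with hz
  set f : M[X] := Bg T (fun i => C (x i)) (fun i => C (x i)) z with hf
  have hzd : ∀ i, (z i).natDegree ≤ n + 1 := by
    intro i
    have h0 : (mp c0').natDegree ≤ n + 1 := natDegree_map_le.trans hd0
    have h1 : (mp c1').natDegree ≤ n + 1 := natDegree_map_le.trans hd1
    have h2 : (mp l').natDegree ≤ n := natDegree_map_le
    have h5 : (X * mp l').natDegree ≤ n + 1 := by
      refine natDegree_mul_le.trans ?_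
      rw [natDegree_X]
      omega
    have h6 : (mp l' * C (algebraMap K M (h i))).natDegree ≤ n + 1 :=
      (natDegree_mul_C_le _ _).trans (h2.trans (Nat.le_succ n))
    refine (natDegree_add_le _ _).trans (max_le ?_ h6)
    fin_cases i
    · exact h0
    · exact h1
    · exact (natDegree_zero (R := M)).le.trans (Nat.zero_le _)
    · exact (natDegree_zero (R := M)).le.trans (Nat.zero_le _)
    · exact (natDegree_zero (R := M)).le.trans (Nat.zero_le _)
    · exact h5
  have hCx : ∀ i, (C (x i)).natDegree ≤ 0 := fun i => (natDegree_C _).le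
  have hfd : f.natDegree ≤ n + 1 := by
    have h5 := natDegree_Bg T (fun i => C (x i)) (fun i => C (x i)) z 0 0 (n + 1) hCx hCx hzd
    rw [zero_add, zero_add] at h5
    exact h5
  have hfc : f.coeff (n + 1) = Bg T x x (fun i => em ![algebraMap K M (c0'.coeff (n + 1)),
      algebraMap K M (c1'.coeff (n + 1)), algebraMap K M (l'.coeff n)] i + 0 *
        algebraMap K M (h i)) := by
    have h5 := coeff_Bg T (fun i => C (x i)) (fun i => C (x i)) z 0 0 (n + 1) hCx hCx hzd
    rw [zero_add, zero_add] at h5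
    rw [hf, h5]
    simp only [coeff_C_zero]
    have h2 : (mp l').coeff (n + 1) = 0 :=
      coeff_eq_zero_of_natDegree_lt (natDegree_map_le.trans_lt (Nat.lt_succ_self n))
    refine congrArg (Bg T x x) (funext fun i => ?_)
    rw [hz]
    simp only [coeff_add, coeff_mul_C, h2, zero_mul, add_zero]
    fin_cases i
    · change (mp c0').coeff (n + 1) = algebraMap K M (c0'.coeff (n + 1))
      exact coeff_map _ _
    · change (mp c1').coeff (n + 1) = algebraMap K M (c1'.coeff (n + 1))
      exact coeff_map _ _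
    · exact coeff_zero _
    · exact coeff_zero _
    · exact coeff_zero _
    · change (X * mp l').coeff (n + 1) = algebraMap K M (l'.coeff n)
      rw [coeff_X_mul]
      exact coeff_map _ _
  by_cases hc0 : f.coeff (n + 1) = 0
  · -- the point at infinity
    have h5 : Bg T x x (fun i => em ![algebraMap K M (c0'.coeff (n + 1)),
      algebraMap K M (c1'.coeff (n + 1)), algebraMap K M (l'.coeff n)] i + 0 *
        algebraMap K M (h i)) = 0 := by
      rw [← hfc]
      exact hc0
    have h6 := congrArg (IsScalarTower.toAlgHom ℂ K M) htop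
    rw [map_Bg, map_zero] at h6
    have h7 : (fun i => (IsScalarTower.toAlgHom ℂ K M) (em ![c0'.coeff (n + 1),
        c1'.coeff (n + 1), l'.coeff n] i)) = em ![algebraMap K M (c0'.coeff (n + 1)),
      algebraMap K M (c1'.coeff (n + 1)), algebraMap K M (l'.coeff n)] := by
      funext i
      fin_cases i <;> simp [em]
    rw [h7] at h6
    have h8 := line_in hT hP ![x 0, x 1, x 5] ![algebraMap K M (c0'.coeff (n + 1)),
      algebraMap K M (c1'.coeff (n + 1)), algebraMap K M (l'.coeff n)] (x 2) 0
      (fun i => algebraMap K M (h i)) hx2 (by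
        have h9 : Bg T (em ![algebraMap K M (c0'.coeff (n + 1)),
          algebraMap K M (c1'.coeff (n + 1)), algebraMap K M (l'.coeff n)])
          (em ![algebraMap K M (c0'.coeff (n + 1)),
          algebraMap K M (c1'.coeff (n + 1)), algebraMap K M (l'.coeff n)])
          (fun i => algebraMap K M (h i)) = 0 := h6
        rw [h9]
        ring) hxq (by
        rw [← hxe]
        exact h5)
    refine no_line hF hsm x hG hodd (fun i => em ![algebraMap K M (c0'.coeff (n + 1)),
      algebraMap K M (c1'.coeff (n + 1)), algebraMap K M (l'.coeff n)] i + 0 *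
        algebraMap K M (h i)) (indep_of x _ 2 hx2 ?_) ?_
    · rintro ⟨κ, hκ⟩
      have h9 := congrFun hκ 2
      have h10 : (0 : M) + 0 * algebraMap K M (h 2) = κ * x 2 := h9
      rw [zero_mul, add_zero] at h10
      have h11 : κ = 0 := (mul_eq_zero.1 h10.symm).resolve_right hx2
      have h12 := congrFun hκ 5
      have h13 : algebraMap K M (l'.coeff n) + 0 * algebraMap K M (h 5) = κ * x 5 := h12
      rw [h11, zero_mul, zero_mul, add_zero] at h13
      have h14 : l'.coeff n = 0 := (algebraMap K M).injective (h13.trans (map_zero _).symm)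
      exact hl' (leadingCoeff_eq_zero.1 h14)
    · rw [← h8]
      refine congrArg (fun z : Fin 6 → M[X] => MvPolynomial.aeval z
        (Bg T MvPolynomial.X MvPolynomial.X MvPolynomial.X : MvPolynomial (Fin 6) ℂ))
        (funext fun j => ?_)
      have h9 := congrFun hxe j
      rw [← h9]
  -- an irreducible factor of odd degree
  have hfn : f.natDegree = n + 1 := le_antisymm hfd (le_natDegree_of_ne_zero hc0)
  obtain ⟨q, hq, hqf, hqo⟩ := odd_factor (n + 1) f hfn hev.add_one
  have _ : Fact (Irreducible q) := ⟨hq⟩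
  have hfr : Odd (Module.finrank M (AdjoinRoot q)) := by
    rw [(AdjoinRoot.powerBasis hq.ne_zero).finrank, AdjoinRoot.powerBasis_dim]
    exact hqo
  set s0 : AdjoinRoot q := AdjoinRoot.root q with hs0
  set θ : M[X] →ₐ[ℂ] AdjoinRoot q := (aeval s0 : M[X] →ₐ[M] AdjoinRoot q).restrictScalars ℂ
    with hθ
  have hθf : θ f = 0 := by
    change aeval s0 f = 0
    rw [hs0, AdjoinRoot.aeval_eq, AdjoinRoot.mk_eq_zero]
    exact hqf
  have hθC : ∀ c : M, θ (C c) = algebraMap M (AdjoinRoot q) c := by
    intro c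
    change aeval s0 (C c) = _
    rw [aeval_C]
  have hθX : θ X = s0 := by
    change aeval s0 X = _
    rw [aeval_X]
  set Ω : K[X] →ₐ[ℂ] AdjoinRoot q := θ.comp (mapAlgHom (IsScalarTower.toAlgHom ℂ K M)) with hΩ
  have hΩm : ∀ p : K[X], Ω p = θ (mp p) := fun p => rfl
  have hΩC : ∀ c : K, Ω (C c) = algebraMap M (AdjoinRoot q) (algebraMap K M c) := by
    intro c
    rw [hΩm, hmp]
    simp only [Polynomial.map_C]
    exact hθC _
  have hΩX : Ω X = s0 := by
    rw [hΩm, hmp]
    simp only [Polynomial.map_X]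
    exact hθX
  have hΩa : ∀ p : K[X], Ω p = aeval s0 p := by
    intro p
    rw [hΩm]
    change aeval s0 (p.map (algebraMap K M)) = _
    rw [aeval_map_algebraMap]
  set x' : Fin 6 → AdjoinRoot q := fun i => algebraMap M (AdjoinRoot q) (x i) with hx'
  set h' : Fin 6 → AdjoinRoot q := fun i => algebraMap M (AdjoinRoot q) (algebraMap K M (h i))
    with hh'
  have hemΩ : (fun i => Ω (em ![c0', c1', X * l'] i)) = em ![Ω c0', Ω c1', s0 * Ω l'] := by
    funext i
    fin_cases i
    · rfl
    · rfl
    · exact map_zero Ω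
    · exact map_zero Ω
    · exact map_zero Ω
    · change Ω (X * l') = s0 * Ω l'
      rw [map_mul, hΩX]
  have r1 : 3 * Bg T (em ![Ω c0', Ω c1', s0 * Ω l']) (em ![Ω c0', Ω c1', s0 * Ω l']) h' +
      3 * Ω l' * Bg T (em ![Ω c0', Ω c1', s0 * Ω l']) h' h' + Ω l' ^ 2 * Bg T h' h' h' = 0 := by
    have h5 := congrArg Ω hrel'
    simp only [map_add, map_mul, map_pow, map_ofNat, map_zero, map_Bg, hΩC] at h5
    rw [hemΩ] at h5
    exact h5
  have hx'2 : x' 2 ≠ 0 := by
    intro h5
    exact hx2 ((algebraMap M (AdjoinRoot q)).injective (h5.trans (map_zero _).symm))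
  have hema : (fun i => (IsScalarTower.toAlgHom ℂ M (AdjoinRoot q)) (em ![x 0, x 1, x 5] i)) =
      em ![x' 0, x' 1, x' 5] := by
    funext i
    fin_cases i
    · rfl
    · rfl
    · exact map_zero _
    · exact map_zero _
    · exact map_zero _
    · rfl
  have r2 : 3 * Bg T (em ![x' 0, x' 1, x' 5]) (em ![x' 0, x' 1, x' 5]) h' +
      3 * x' 2 * Bg T (em ![x' 0, x' 1, x' 5]) h' h' + x' 2 ^ 2 * Bg T h' h' h' = 0 := by
    have h5 := congrArg (IsScalarTower.toAlgHom ℂ M (AdjoinRoot q)) hxq
    simp only [map_add, map_mul, map_pow, map_ofNat, map_zero, map_Bg] at h5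
    rw [hema] at h5
    exact h5
  have hxe' : x' = fun i => em ![x' 0, x' 1, x' 5] i + x' 2 * h' i := by
    funext i
    have h5 := congrArg (IsScalarTower.toAlgHom ℂ M (AdjoinRoot q)) (congrFun hxe i)
    rw [map_add, map_mul] at h5
    have h6 := congrFun hema i
    rw [← h6]
    exact h5
  set v' : Fin 6 → AdjoinRoot q := fun i => em ![Ω c0', Ω c1', s0 * Ω l'] i + Ω l' * h' i with hv'
  have r3 : Bg T x' x' v' = 0 := by
    have h5 : θ f = Bg T (fun i => θ (C (x i))) (fun i => θ (C (x i))) (fun i => θ (z i)) := by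
      rw [hf, map_Bg]
    rw [hθf] at h5
    rw [h5]
    have e1 : x' = fun i => θ (C (x i)) := funext fun i => (hθC _).symm
    have e3 : v' = fun i => θ (z i) := by
      funext i
      rw [hz, hv']
      simp only [map_add, map_mul, hθC]
      refine congrArg (fun y : AdjoinRoot q => y + Ω l' * h' i) ?_
      fin_cases i
      · rfl
      · rfl
      · exact (map_zero θ).symm
      · exact (map_zero θ).symm
      · exact (map_zero θ).symm
      · change s0 * Ω l' = θ (X * mp l')
        rw [map_mul, hθX, hΩm]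
    rw [← e1, ← e3]
  have h8 := line_in hT hP ![x' 0, x' 1, x' 5] ![Ω c0', Ω c1', s0 * Ω l'] (x' 2) (Ω l') h' hx'2
    r1 r2 (by
      rw [← hxe']
      exact r3)
  refine no_line hF hsm x' (gp_ext x hG) (odd_ext x hodd hfr) v' (indep_of x' v' 2 hx'2 ?_) ?_
  · rintro ⟨κ, hκ⟩
    have k0 : Ω c0' + Ω l' * algebraMap M (AdjoinRoot q) (algebraMap K M 0) = κ * x' 0 :=
      congrFun hκ 0
    have k1 : Ω c1' + Ω l' * algebraMap M (AdjoinRoot q) (algebraMap K M 0) = κ * x' 1 :=
      congrFun hκ 1
    have k2 : 0 + Ω l' * algebraMap M (AdjoinRoot q) (algebraMap K M 1) = κ * x' 2 :=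
      congrFun hκ 2
    have k5 : s0 * Ω l' + Ω l' * algebraMap M (AdjoinRoot q) (algebraMap K M 0) = κ * x' 5 :=
      congrFun hκ 5
    rw [map_zero, map_zero, mul_zero, add_zero] at k0 k1 k5
    rw [map_one, map_one, mul_one, zero_add] at k2
    by_cases hκ0 : κ = 0
    · rw [hκ0, zero_mul] at k0 k1 k2
      have h9 := congrArg Ω hbez
      rw [map_add, map_add, map_mul, map_mul, map_mul, map_one, k0, k1, k2] at h9
      simp at h9
    · apply hne
      apply (algebraMap M (AdjoinRoot q)).injective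
      have h9 : s0 * x' 2 = x' 5 := by
        apply mul_left_cancel₀ hκ0
        calc κ * (s0 * x' 2) = s0 * (κ * x' 2) := by ring
          _ = _ := by rw [← k2, k5]
      have h10 : s0 = algebraMap M (AdjoinRoot q) (x 5 / x 2) := by
        rw [map_div₀]
        exact (eq_div_iff hx'2).2 h9
      have h11 : ∀ p : K[X], algebraMap M (AdjoinRoot q) (aeval (x 5 / x 2) p) = Ω p := by
        intro p
        rw [hΩa, h10, aeval_algebraMap_apply]
      rw [map_mul, map_mul, h11, h11, e0, e2, map_mul, map_mul]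
      change Ω g * Ω c0' * x' 2 = x' 0 * (Ω g * Ω l')
      rw [k0, k2]
      ring
  · rw [← h8]
    refine congrArg (fun z : Fin 6 → (AdjoinRoot q)[X] => MvPolynomial.aeval z
      (Bg T MvPolynomial.X MvPolynomial.X MvPolynomial.X : MvPolynomial (Fin 6) ℂ))
      (funext fun j => ?_)
    have h9 := congrFun hxe' j
    rw [← h9]

end

end Pool.Agent.R845.CL
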