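import Mathlib
import Pool.Agent.R845.CL.Ml
import Pool.Agent.R845.E3.Rat
import Pool.Agent.R845.E3.Evn

/-! # Project CL: no rational section for a line contained in a plane -/

set_option autoImplicit false

namespace Pool.Agent.R845.CL

open MvPolynomial Pool.Agent.Y201.C3 Pool.Agent.R845.E3 Pool.Agent.R845.T2 Pool.Agent.TH314.PD

noncomputable section

theorem bg_em (T : Fin 6 → Fin 6 → Fin 6 → ℂ) {R : Type} [CommRing R] [Algebra ℂ R]
    (u v w : Fin 3 → R) :
    Bg T (em u) (em v) (em w) = Bg (fun i j k => T (pl i) (pl j) (pl k)) u v w := by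
  unfold Bg
  simp only [Fin.sum_univ_six, Fin.sum_univ_three]
  simp [em, pl]

theorem planeT_of {T : Fin 6 → Fin 6 → Fin 6 → ℂ} (hT : SymG T)
    (h : ∀ u : Fin 3 → ℂ, eval (em u) (Bg T X X X : MvPolynomial (Fin 6) ℂ) = 0) : PlaneT T := by
  intro i j k
  set T' : Fin 3 → Fin 3 → Fin 3 → ℂ := fun i j k => T (pl i) (pl j) (pl k) with hT'
  have h1 : SymG T' := fun i j k => hT _ _ _
  have h2 : ∀ u : Fin 3 → ℂ, Bg T' u u u = 0 := by
    intro u
    rw [← bg_em, ← aeval_frmG, aeval_eq_eval]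
    exact h u
  have h5 := polar h1 h2 (fun a => if a = i then (1 : ℂ) else 0)
    (fun a => if a = j then (1 : ℂ) else 0) (fun a => if a = k then (1 : ℂ) else 0)
  rw [← T_eq (T := T')] at h5
  exact h5

/-- a smooth cubic form involves the variable `X 1` -/
theorem involves {T : Fin 6 → Fin 6 → Fin 6 → ℂ} (hT : SymG T)
    (hsm : Sm (Bg T X X X : MvPolynomial (Fin 6) ℂ)) :
    (1 : Fin 6) ∈ (Bg T X X X : MvPolynomial (Fin 6) ℂ).vars := by
  by_contra hv
  obtain ⟨F0, hF0⟩ := exists_rename_eq_of_vars_subset_range (Bg T X X X : MvPolynomial (Fin 6) ℂ)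
    (Fin.succAbove 1) Fin.succAbove_right_injective (by
      intro i hi
      have h1 : i ≠ 1 := by
        rintro rfl
        exact hv hi
      obtain ⟨j, hj⟩ := Fin.exists_succAbove_eq h1
      exact ⟨j, hj⟩)
  have h1 : ∀ (z : Fin 6 → ℂ) (t : ℂ), Bg T (fun i => z i + t * Rat.ev ℂ 1 i)
      (fun i => z i + t * Rat.ev ℂ 1 i) (fun i => z i + t * Rat.ev ℂ 1 i) = Bg T z z z := by
    intro z t
    have e : ∀ u : Fin 6 → ℂ, Bg T u u u = aeval (u ∘ Fin.succAbove 1) F0 := by
      intro u
      have e1 := aeval_frmG T u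
      rw [← hF0, aeval_rename] at e1
      exact e1.symm
    rw [e, e z]
    congr 1
    congr 1
    funext j
    simp only [Function.comp_apply]
    have h2 : Rat.ev ℂ (1 : Fin 6) ((1 : Fin 6).succAbove j) = 0 := by
      unfold Rat.ev
      rw [if_neg (Fin.succAbove_ne 1 j)]
    rw [h2, mul_zero, add_zero]
  have h2 : ∀ (z : Fin 6 → ℂ), Bg T z (Rat.ev ℂ 1) (Rat.ev ℂ 1) = 0 := by
    intro z
    have h3 : ∀ t : ℂ, 3 * t * Bg T z z (Rat.ev ℂ 1) + 3 * t ^ 2 * Bg T z (Rat.ev ℂ 1)
        (Rat.ev ℂ 1) + t ^ 3 * Bg T (Rat.ev ℂ 1) (Rat.ev ℂ 1) (Rat.ev ℂ 1) = 0 := by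
      intro t
      have h4 := Bg_span3 hT z (Rat.ev ℂ 1) (Rat.ev ℂ 1) 1 t 0
      simp only [one_mul, zero_mul, add_zero] at h4
      rw [h1] at h4
      linear_combination -h4
    have h4 := h3 1
    have h5 := h3 (-1)
    linear_combination (1 / 6) * h4 + (1 / 6) * h5
  have h3 := hsm (Rat.ev ℂ 1) (fun i => by
    rw [← aeval_eq_eval]
    refine (Rat.pd_ev hT i (Rat.ev ℂ 1)).trans ?_
    rw [Bg_swap23 hT, Bg_swap12 hT, h2, mul_zero])
  have h4 := congrFun h3 1
  unfold Rat.ev at h4
  rw [if_pos rfl] at h4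
  exact one_ne_zero h4

/-- the indices of the other coordinates -/
def ta : Fin 5 → Fin 6 := ![2, 0, 3, 4, 5]

theorem ta_inj : Function.Injective ta := by decide

theorem ta_ne (i : Fin 5) : ta i ≠ 1 := by
  revert i
  decide

theorem ind4 {T : Fin 6 → Fin 6 → Fin 6 → ℂ} (hT : SymG T)
    (hsm : Sm (Bg T X X X : MvPolynomial (Fin 6) ℂ)) {M : Type} [Field M] [Algebra ℂ M]
    (x : Fin 6 → M) (hG : Gp (Bg T X X X : MvPolynomial (Fin 6) ℂ) x) :
    x 2 ≠ 0 ∧ AlgebraicIndependent ℂ (![x 0 / x 2, x 3 / x 2, x 4 / x 2, x 5 / x 2] :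
      Fin 4 → M) := by
  have hF0 : (Bg T X X X : MvPolynomial (Fin 6) ℂ) ≠ 0 := by
    intro h
    have h1 := involves hT hsm
    rw [h, vars_0] at h1
    exact absurd h1 (Finset.notMem_empty _)
  have h1 := Pool.Agent.R845.T2.Fd.indep_of_generic (r := 4) (fun i => x (ta i)) (by
    intro e H hH h0
    by_contra hne
    have h2 : aeval x (rename ta H) = 0 := by
      rw [aeval_rename]
      exact h0
    obtain ⟨B, hB⟩ := hG.2 e _ hH.rename_isHomogeneous h2
    have h3 : rename ta H ≠ 0 := by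
      intro h
      exact hne (rename_injective _ ta_inj (by rw [h, map_zero]))
    have hB0 : B ≠ 0 := by
      rintro rfl
      rw [mul_zero] at hB
      exact h3 hB
    have h4 : degreeOf 1 (rename ta H) ≠ 0 := by
      rw [hB, degreeOf_mul_eq hF0 hB0]
      have h5 := mem_vars_iff_degreeOf_ne_zero.1 (involves hT hsm)
      omega
    rw [← mem_vars_iff_degreeOf_ne_zero] at h4
    obtain ⟨i, _, hi⟩ := mem_vars_rename _ _ h4
    exact ta_ne i hi)
  refine ⟨h1.1, ?_⟩
  have h2 : (fun l : Fin 4 => x (ta ((0 : Fin 5).succAbove l)) / x (ta 0)) =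
      ![x 0 / x 2, x 3 / x 2, x 4 / x 2, x 5 / x 2] := by
    funext l
    fin_cases l <;> rfl
  rw [← h2]
  exact h1.2

/-- the generic vector `(0, 0, 1, h3, h4, 0)` -/
def hv {R : Type} [CommRing R] (a b : R) : Fin 6 → R := ![0, 0, 1, a, b, 0]

/-- **no rational section**: a smooth cubic fourfold containing the plane spanned by the
coordinate vectors `0`, `1`, `5`, and the line spanned by the first two -/
theorem no_iso_plane {F : MvPolynomial (Fin (1 + 1 + (3 + 1))) ℂ} (hF : F.IsHomogeneous 3)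
    (hsm : Sm F) (hW : VanW F) (hPl : ∀ u : Fin 3 → ℂ, eval (em u) F = 0) {M : Type} [Field M]
    [Algebra ℂ M] (x : Fin (1 + 1 + (3 + 1)) → M) (hG : Gp F x)
    (hodd : Odd (Module.finrank (ratioField x) M)) : ¬ Iso F := by
  obtain ⟨T, hT, hFT⟩ := exists_tri F hF
  subst hFT
  rintro ⟨c, l, ⟨hl, hc⟩ | ⟨hc, hc'⟩⟩
  swap
  · exact Trans.alt2 evn 1 3 _ hF hsm hW c hc hc'
  have hP : PlaneT T := planeT_of hT hPl
  obtain ⟨hx2, hind⟩ := ind4 hT hsm x hG
  -- the field of rational functions in two variables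
  set ι : MvPolynomial (Fin 2) ℂ →ₐ[ℂ] Rn 2 := IsScalarTower.toAlgHom ℂ (MvPolynomial (Fin 2) ℂ)
    (Rn 2) with hι
  have hιi : Function.Injective ι := IsFractionRing.injective (MvPolynomial (Fin 2) ℂ) (Rn 2)
  have hψ0 : Function.Injective (aeval (![x 3 / x 2, x 4 / x 2] : Fin 2 → M) :
      MvPolynomial (Fin 2) ℂ →ₐ[ℂ] M) := by
    have h1 := hind.comp (![1, 2] : Fin 2 → Fin 4) (by decide)
    have h2 : ((![x 0 / x 2, x 3 / x 2, x 4 / x 2, x 5 / x 2] : Fin 4 → M) ∘
        (![1, 2] : Fin 2 → Fin 4)) = ![x 3 / x 2, x 4 / x 2] := by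
      funext i
      fin_cases i <;> rfl
    rw [h2] at h1
    exact h1
  have hΘi : Function.Injective (aeval (![x 3 / x 2, x 4 / x 2, x 5 / x 2] : Fin 3 → M) :
      MvPolynomial (Fin 3) ℂ →ₐ[ℂ] M) := by
    have h1 := hind.comp (![1, 2, 3] : Fin 3 → Fin 4) (by decide)
    have h2 : ((![x 0 / x 2, x 3 / x 2, x 4 / x 2, x 5 / x 2] : Fin 4 → M) ∘
        (![1, 2, 3] : Fin 3 → Fin 4)) = ![x 3 / x 2, x 4 / x 2, x 5 / x 2] := by
      funext i
      fin_cases i <;> rfl
    rw [h2] at h1
    exact h1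
  set ψ : Rn 2 →ₐ[ℂ] M := IsFractionRing.liftAlgHom hψ0 with hψ
  have hψι : ∀ p, ψ (ι p) = aeval (![x 3 / x 2, x 4 / x 2] : Fin 2 → M) p := by
    intro p
    exact IsFractionRing.lift_algebraMap hψ0 p
  let _ : Algebra (Rn 2) M := ψ.toRingHom.toAlgebra
  have _ : IsScalarTower ℂ (Rn 2) M := IsScalarTower.of_algebraMap_eq fun a => (ψ.commutes a).symm
  have hal : ∀ p : Rn 2, algebraMap (Rn 2) M p = ψ p := fun p => rfl
  -- polynomials in `Y_2` over this field
  set φ : MvPolynomial (Fin 3) ℂ →ₐ[ℂ] Polynomial (Rn 2) :=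
    aeval (![Polynomial.C (ι (X 0)), Polynomial.C (ι (X 1)), Polynomial.X] :
      Fin 3 → Polynomial (Rn 2)) with hφ
  have hΘ : ∀ p, Polynomial.aeval (x 5 / x 2) (φ p) =
      aeval (![x 3 / x 2, x 4 / x 2, x 5 / x 2] : Fin 3 → M) p := by
    intro p
    have h1 := comp_aeval_apply (![Polynomial.C (ι (X 0)), Polynomial.C (ι (X 1)), Polynomial.X] :
      Fin 3 → Polynomial (Rn 2)) ((Polynomial.aeval (x 5 / x 2) :
        Polynomial (Rn 2) →ₐ[Rn 2] M).restrictScalars ℂ) p
    refine h1.trans ?_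
    congr 2
    funext i
    fin_cases i
    · change Polynomial.aeval (x 5 / x 2) (Polynomial.C (ι (X 0))) = x 3 / x 2
      rw [Polynomial.aeval_C, hal, hψι, aeval_X]
      rfl
    · change Polynomial.aeval (x 5 / x 2) (Polynomial.C (ι (X 1))) = x 4 / x 2
      rw [Polynomial.aeval_C, hal, hψι, aeval_X]
      rfl
    · change Polynomial.aeval (x 5 / x 2) Polynomial.X = x 5 / x 2
      rw [Polynomial.aeval_X]
  refine mlevel hT hP hF hsm x hG hodd hx2 (ι (X 0)) (ι (X 1)) ?_ ?_ ?_ (φ (c 0)) (φ (c 1)) (φ l)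
    ?_ ?_ ?_
  · rw [hal, hψι, aeval_X]
    change x 3 = x 2 * (x 3 / x 2)
    field_simp
  · rw [hal, hψι, aeval_X]
    change x 4 = x 2 * (x 4 / x 2)
    field_simp
  · -- anisotropy
    intro w hw
    by_contra hw0
    obtain ⟨b, hb⟩ := IsLocalization.exist_integer_multiples_of_finite
      (nonZeroDivisors (MvPolynomial (Fin 2) ℂ)) w
    choose p hp using hb
    have hp' : ∀ i, ι (p i) = ι (b : MvPolynomial (Fin 2) ℂ) * w i := by
      intro i
      have h3 := hp i
      rw [Algebra.smul_def] at h3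
      exact h3
    have hb0 : ι (b : MvPolynomial (Fin 2) ℂ) ≠ 0 := by
      intro h5
      exact nonZeroDivisors.ne_zero b.2 (hιi (h5.trans (map_zero _).symm))
    have hpe : Bg T (em ![p 0, p 1, 0]) (em ![p 0, p 1, 0])
        (![0, 0, 1, X 0, X 1, 0] : Fin 6 → MvPolynomial (Fin 2) ℂ) = 0 := by
      apply hιi
      rw [map_Bg, map_zero]
      have h1 : (fun i => ι (em ![p 0, p 1, 0] i)) =
          fun i => ι (b : MvPolynomial (Fin 2) ℂ) * em ![w 0, w 1, 0] i := by
        funext i
        fin_cases i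
        · exact hp' 0
        · exact hp' 1
        · exact (map_zero ι).trans (mul_zero _).symm
        · exact (map_zero ι).trans (mul_zero _).symm
        · exact (map_zero ι).trans (mul_zero _).symm
        · exact (map_zero ι).trans (mul_zero _).symm
      have h2 : (fun i => ι ((![0, 0, 1, X 0, X 1, 0] : Fin 6 → MvPolynomial (Fin 2) ℂ) i)) =
          (![0, 0, 1, ι (X 0), ι (X 1), 0] : Fin 6 → Rn 2) := by
        funext i
        fin_cases i
        · exact map_zero ι
        · exact map_zero ι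
        · exact map_one ι
        · rfl
        · rfl
        · exact map_zero ι
      rw [h1, h2, Bg_smul1, Bg_smul2, hw, mul_zero, mul_zero]
    set rr : MvPolynomial (Fin 2) ℂ →ₐ[ℂ] MvPolynomial (Fin 3) ℂ := rename Fin.castSucc with hrr
    have hri : Function.Injective rr := rename_injective _ (Fin.castSucc_injective 2)
    refine Trans.alt2 evn 1 3 _ hF hsm hW ![rr (p 0), rr (p 1)] ?_ ?_
    · intro h1
      apply hw0
      have h2 : ∀ i, p i = 0 → w i = 0 := by
        intro i hi
        have h3 := hp' i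
        rw [hi, map_zero] at h3
        exact (mul_eq_zero.1 h3.symm).resolve_left hb0
      funext i
      fin_cases i
      · exact h2 0 (hri ((congrFun h1 0).trans (map_zero rr).symm))
      · exact h2 1 (hri ((congrFun h1 1).trans (map_zero rr).symm))
    · have h1 : (@Fin.append 2 4 (MvPolynomial (Fin 3) ℂ) ![rr (p 0), rr (p 1)] 0) =
          em ![rr (p 0), rr (p 1), 0] := by
        funext i
        fin_cases i <;> rfl
      have h2 : ∀ j : Fin 4, aeval (@Fin.append 2 4 (MvPolynomial (Fin 3) ℂ)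
          ![rr (p 0), rr (p 1)] 0) (pderiv (Fin.natAdd 2 j)
            (Bg T X X X : MvPolynomial (Fin 6) ℂ)) =
          3 * Bg T (em ![rr (p 0), rr (p 1), 0]) (em ![rr (p 0), rr (p 1), 0])
            (Rat.ev (MvPolynomial (Fin 3) ℂ) (Fin.natAdd 2 j)) := by
        intro j
        rw [h1]
        exact Rat.pd_ev hT (Fin.natAdd 2 j) _
      have h3 : Bg T (em ![rr (p 0), rr (p 1), 0]) (em ![rr (p 0), rr (p 1), 0])
          (![0, 0, 1, X 0, X 1, 0] : Fin 6 → MvPolynomial (Fin 3) ℂ) = 0 := by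
        have h4 := congrArg rr hpe
        rw [map_Bg, map_zero] at h4
        have h5 : (fun i => rr (em ![p 0, p 1, 0] i)) = em ![rr (p 0), rr (p 1), 0] := by
          funext i
          fin_cases i
          · rfl
          · rfl
          · exact map_zero rr
          · exact map_zero rr
          · exact map_zero rr
          · exact map_zero rr
        have h6 : (fun i => rr ((![0, 0, 1, X 0, X 1, 0] : Fin 6 → MvPolynomial (Fin 2) ℂ) i)) =
            (![0, 0, 1, X 0, X 1, 0] : Fin 6 → MvPolynomial (Fin 3) ℂ) := by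
          funext i
          fin_cases i
          · exact map_zero rr
          · exact map_zero rr
          · exact map_one rr
          · exact rename_X _ _
          · exact rename_X _ _
          · exact map_zero rr
        rw [h5, h6] at h4
        exact h4
      have h4 : (fun i => ∑ j, yv ℂ 3 j * Rat.ev (MvPolynomial (Fin 3) ℂ) (Fin.natAdd 2 j) i) =
          fun i => (![0, 0, 1, X 0, X 1, 0] : Fin 6 → MvPolynomial (Fin 3) ℂ) i +
            X 2 * em ![0, 0, 1] i := by
        funext i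
        rw [Fin.sum_univ_four]
        unfold Rat.ev
        fin_cases i <;> simp [yv, em] <;> rfl
      have h5 : 3 * Bg T (em ![rr (p 0), rr (p 1), 0]) (em ![rr (p 0), rr (p 1), 0])
          (fun i => ∑ j, yv ℂ 3 j * Rat.ev (MvPolynomial (Fin 3) ℂ) (Fin.natAdd 2 j) i) = 0 := by
        rw [h4, Bg_add3 T _ _ (![0, 0, 1, X 0, X 1, 0] : Fin 6 → MvPolynomial (Fin 3) ℂ)
          (fun i => X 2 * em ![0, 0, 1] i), Bg_smul3, h3, em_zero hP]
        ring
      rw [Bg_sum3 hT] at h5
      simp only [Bg_smul3] at h5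
      rw [Finset.mul_sum] at h5
      refine Eq.trans ?_ h5
      refine Finset.sum_congr rfl fun j _ => ?_
      have h6 := h2 j
      refine (congrArg (fun z => yv ℂ 3 j * z) h6).trans ?_
      ring
  · -- `l` is not zero
    intro h0
    have h1 := hΘ l
    rw [h0, map_zero] at h1
    exact hl (hΘi (h1.symm.trans (map_zero _).symm))
  · -- the relation
    have h1 := congrArg φ hc
    rw [map_zero, comp_aeval_apply] at h1
    have h2 : (fun i => φ (@Fin.append 2 4 (MvPolynomial (Fin 3) ℂ) c (fun j => l * yv ℂ 3 j) i)) =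
        fun i => em ![φ (c 0), φ (c 1), Polynomial.X * φ l] i + φ l * Polynomial.C
          ((![0, 0, 1, ι (X 0), ι (X 1), 0] : Fin 6 → Rn 2) i) := by
      funext i
      fin_cases i
      · change φ (c 0) = φ (c 0) + φ l * Polynomial.C 0
        rw [Polynomial.C_0, mul_zero, add_zero]
      · change φ (c 1) = φ (c 1) + φ l * Polynomial.C 0
        rw [Polynomial.C_0, mul_zero, add_zero]
      · change φ (l * 1) = 0 + φ l * Polynomial.C 1
        rw [Polynomial.C_1, mul_one, mul_one, zero_add]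
      · change φ (l * X 0) = 0 + φ l * Polynomial.C (ι (X 0))
        rw [map_mul, zero_add, hφ, aeval_X]
        rfl
      · change φ (l * X 1) = 0 + φ l * Polynomial.C (ι (X 1))
        rw [map_mul, zero_add, hφ, aeval_X]
        rfl
      · change φ (l * X 2) = Polynomial.X * φ l + φ l * Polynomial.C 0
        rw [map_mul, Polynomial.C_0, mul_zero, add_zero, mul_comm, hφ, aeval_X]
        rfl
    refine Eq.trans ?_ h1
    refine Eq.trans ?_ (aeval_frmG T _).symm
    rw [← h2]
  · -- the point is not on the curve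
    intro h1
    rw [hΘ, hΘ] at h1
    have h2 : aeval (![x 0 / x 2, x 3 / x 2, x 4 / x 2, x 5 / x 2] : Fin 4 → M)
        (rename Fin.succ (c 0) - X 0 * rename Fin.succ l) = 0 := by
      have h3 : ∀ q : MvPolynomial (Fin 3) ℂ,
          aeval (![x 0 / x 2, x 3 / x 2, x 4 / x 2, x 5 / x 2] : Fin 4 → M)
            (rename Fin.succ q) =
          aeval (![x 3 / x 2, x 4 / x 2, x 5 / x 2] : Fin 3 → M) q := by
        intro q
        rw [aeval_rename]
        congr 2
      rw [map_sub, map_mul, h3, h3, aeval_X]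
      change _ - x 0 / x 2 * _ = 0
      rw [sub_eq_zero, div_mul_eq_mul_div, eq_div_iff hx2]
      exact h1
    have h3 := hind (h2.trans (map_zero _).symm)
    have h4 : ∀ a : ℂ, c 0 = C a * l := by
      intro a
      have h5 := congrArg (aeval (Fin.cons (C a) X : Fin 4 → MvPolynomial (Fin 3) ℂ)) h3
      rw [map_zero, map_sub, map_mul, aeval_rename, aeval_rename, aeval_X, Fin.cons_zero] at h5
      have h6 : (Fin.cons (C a) X : Fin 4 → MvPolynomial (Fin 3) ℂ) ∘ Fin.succ = X := by
        funext i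
        rfl
      rw [h6, aeval_X_left_apply, aeval_X_left_apply] at h5
      exact sub_eq_zero.1 h5
    have h5 := h4 0
    have h6 := h4 1
    rw [C_0, zero_mul] at h5
    rw [C_1, one_mul] at h6
    exact hl (h6.symm.trans h5)

end

end Pool.Agent.R845.CL
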