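import Mathlib
import Pool.Agent.R845.E3.Lin2
import Pool.Agent.R845.E3.Stm

/-! # Project CL: coordinates with respect to a basis -/

set_option autoImplicit false

namespace Pool.Agent.R845.CL

open MvPolynomial Pool.Agent.R845.E3 Pool.Agent.TH314.PD Module

noncomputable section

theorem basis_ext {n p q : ℕ} (hpq : p + q = n) (u : Fin p → (Fin n → ℂ))
    (hu : LinearIndependent ℂ u) :
    ∃ b : Basis (Fin p ⊕ Fin q) ℂ (Fin n → ℂ), ∀ i, b (Sum.inl i) = u i := by
  obtain ⟨C, hC⟩ := Submodule.exists_isCompl (Submodule.span ℂ (Set.range u))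
  have h1 : finrank ℂ C = q := by
    have h2 := Submodule.finrank_add_eq_of_isCompl hC
    rw [finrank_span_eq_card hu, Module.finrank_fin_fun, Fintype.card_fin] at h2
    omega
  refine ⟨((Basis.span hu).prod (Module.finBasisOfFinrankEq ℂ C h1)).map
    (Submodule.prodEquivOfIsCompl _ _ hC), fun i => ?_⟩
  rw [Basis.map_apply, Basis.prod_apply]
  simp [Basis.span_apply]

variable {N n : ℕ} (b : Basis (Fin n) ℂ (Fin N → ℂ))

/-- the point with given coordinates -/
def up {R : Type} [CommRing R] [Algebra ℂ R] (z : Fin n → R) : Fin N → R :=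
  fun i => ∑ j, z j * algebraMap ℂ R (b j i)

/-- the coordinates of a point -/
def dn {R : Type} [CommRing R] [Algebra ℂ R] (x : Fin N → R) : Fin n → R :=
  fun j => ∑ i, x i * algebraMap ℂ R (b.repr (Pi.single i 1) j)

/-- the form in the new coordinates -/
def bf (F : MvPolynomial (Fin N) ℂ) : MvPolynomial (Fin n) ℂ := aeval (up b X) F

/-- the form in the old coordinates -/
def df (H : MvPolynomial (Fin n) ℂ) : MvPolynomial (Fin N) ℂ := aeval (dn b X) H

theorem sum_repr (i i' : Fin N) : ∑ j, b.repr (Pi.single i 1) j * b j i' =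
    if i' = i then 1 else 0 := by
  have h1 := congrFun (b.sum_repr (Pi.single i 1)) i'
  rw [Finset.sum_apply] at h1
  simp only [Pi.smul_apply, smul_eq_mul] at h1
  rw [h1, Pi.single_apply]

theorem repr_sum (v : Fin N → ℂ) (j : Fin n) : ∑ i, v i * b.repr (Pi.single i 1) j =
    b.repr v j := by
  have h1 : v = ∑ i, v i • (Pi.single i 1 : Fin N → ℂ) := by
    funext a
    rw [Finset.sum_apply]
    simp [Pi.single_apply]
  conv_rhs => rw [h1]
  rw [map_sum, Finsupp.finsetSum_apply]
  refine Finset.sum_congr rfl fun i _ => ?_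
  rw [map_smul, Finsupp.smul_apply, smul_eq_mul]

theorem up_dn {R : Type} [CommRing R] [Algebra ℂ R] (x : Fin N → R) : up b (dn b x) = x := by
  funext i'
  unfold up dn
  simp only [Finset.sum_mul]
  rw [Finset.sum_comm]
  have h1 : ∀ i, ∑ j, x i * algebraMap ℂ R (b.repr (Pi.single i 1) j) * algebraMap ℂ R (b j i') =
      x i * algebraMap ℂ R (if i' = i then 1 else 0) := by
    intro i
    rw [← sum_repr b i i', map_sum, Finset.mul_sum]
    refine Finset.sum_congr rfl fun j _ => ?_
    rw [map_mul]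
    ring
  rw [Finset.sum_congr rfl fun i _ => h1 i, Finset.sum_eq_single i']
  · rw [if_pos rfl, map_one, mul_one]
  · intro a _ ha
    rw [if_neg (Ne.symm ha), map_zero, mul_zero]
  · intro h
    exact absurd (Finset.mem_univ _) h

theorem dn_up {R : Type} [CommRing R] [Algebra ℂ R] (z : Fin n → R) : dn b (up b z) = z := by
  funext j'
  unfold up dn
  simp only [Finset.sum_mul]
  rw [Finset.sum_comm]
  have h1 : ∀ j, ∑ i, z j * algebraMap ℂ R (b j i) * algebraMap ℂ R (b.repr (Pi.single i 1) j') =
      z j * algebraMap ℂ R (if j = j' then 1 else 0) := by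
    intro j
    have h2 := repr_sum b (b j) j'
    rw [Basis.repr_self, Finsupp.single_apply] at h2
    rw [← h2, map_sum, Finset.mul_sum]
    refine Finset.sum_congr rfl fun i _ => ?_
    rw [map_mul]
    ring
  rw [Finset.sum_congr rfl fun j _ => h1 j, Finset.sum_eq_single j']
  · rw [if_pos rfl, map_one, mul_one]
  · intro a _ ha
    rw [if_neg ha, map_zero, mul_zero]
  · intro h
    exact absurd (Finset.mem_univ _) h

theorem up_map {R R' : Type} [CommRing R] [Algebra ℂ R] [CommRing R'] [Algebra ℂ R']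
    (φ : R →ₐ[ℂ] R') (z : Fin n → R) : (fun i => φ (up b z i)) = up b fun j => φ (z j) := by
  funext i
  unfold up
  rw [map_sum]
  refine Finset.sum_congr rfl fun j _ => ?_
  rw [map_mul, AlgHom.commutes]

theorem dn_map {R R' : Type} [CommRing R] [Algebra ℂ R] [CommRing R'] [Algebra ℂ R']
    (φ : R →ₐ[ℂ] R') (x : Fin N → R) : (fun i => φ (dn b x i)) = dn b fun j => φ (x j) := by
  funext i
  unfold dn
  rw [map_sum]
  refine Finset.sum_congr rfl fun j _ => ?_
  rw [map_mul, AlgHom.commutes]

theorem aeval_bf {R : Type} [CommRing R] [Algebra ℂ R] (z : Fin n → R)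
    (F : MvPolynomial (Fin N) ℂ) : aeval z (bf b F) = aeval (up b z) F := by
  unfold bf
  rw [comp_aeval_apply, up_map]
  congr 1
  congr 1
  congr 1
  funext j
  rw [aeval_X]

theorem aeval_df {R : Type} [CommRing R] [Algebra ℂ R] (x : Fin N → R)
    (H : MvPolynomial (Fin n) ℂ) : aeval x (df b H) = aeval (dn b x) H := by
  unfold df
  rw [comp_aeval_apply, dn_map]
  congr 1
  congr 1
  congr 1
  funext j
  rw [aeval_X]

theorem bf_df (H : MvPolynomial (Fin n) ℂ) : bf b (df b H) = H := by
  unfold bf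
  rw [aeval_df, dn_up, aeval_X_left_apply]

theorem df_bf (F : MvPolynomial (Fin N) ℂ) : df b (bf b F) = F := by
  unfold df
  rw [aeval_bf, up_dn, aeval_X_left_apply]

theorem up_hom (i : Fin N) : (up b (X : Fin n → MvPolynomial (Fin n) ℂ) i).IsHomogeneous 1 := by
  unfold up
  refine IsHomogeneous.sum _ _ _ fun j _ => ?_
  have h1 := (isHomogeneous_X ℂ j).mul (isHomogeneous_C (Fin n) (b j i))
  exact h1

theorem dn_hom (j : Fin n) : (dn b (X : Fin N → MvPolynomial (Fin N) ℂ) j).IsHomogeneous 1 := by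
  unfold dn
  refine IsHomogeneous.sum _ _ _ fun i _ => ?_
  have h1 := (isHomogeneous_X ℂ i).mul (isHomogeneous_C (Fin N) (b.repr (Pi.single i 1) j))
  exact h1

theorem bf_hom {d : ℕ} {F : MvPolynomial (Fin N) ℂ} (hF : F.IsHomogeneous d) :
    (bf b F).IsHomogeneous d := by
  have h1 := hF.aeval (up b X) (fun i => up_hom b i)
  rwa [one_mul] at h1

theorem df_hom {d : ℕ} {H : MvPolynomial (Fin n) ℂ} (hH : H.IsHomogeneous d) :
    (df b H).IsHomogeneous d := by
  have h1 := hH.aeval (dn b X) (fun i => dn_hom b i)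
  rwa [one_mul] at h1

theorem bf_sm {F : MvPolynomial (Fin N) ℂ} (hF : Sm F) : Sm (bf b F) := by
  classical
  intro z hz
  have h0 : ∀ j, ∑ i, eval (up b z) (pderiv i F) * b j i = 0 := by
    intro j
    have h1 := chain_rule (pderiv j) (up b X) F
    have h2 := congrArg (eval z) h1
    rw [map_sum] at h2
    rw [show aeval (up b X) F = bf b F from rfl, hz j] at h2
    rw [h2]
    refine Finset.sum_congr rfl fun i _ => ?_
    rw [map_mul]
    congr 1
    · have h3 := aeval_bf b z (pderiv i F)
      rw [aeval_eq_eval, aeval_eq_eval] at h3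
      exact h3.symm
    · unfold up
      rw [map_sum, map_sum]
      rw [Finset.sum_eq_single j]
      · rw [pderiv_mul, pderiv_X_self, one_mul, algebraMap_eq, pderiv_C, mul_zero, add_zero,
          eval_C]
      · intro a _ ha
        rw [pderiv_mul, pderiv_X_of_ne ha, zero_mul, algebraMap_eq, pderiv_C, mul_zero, add_zero,
          map_zero]
      · intro h
        exact absurd (Finset.mem_univ _) h
  have h1 : up b z = 0 := by
    apply hF
    intro i'
    have h2 : eval (up b z) (pderiv i' F) = ∑ j, b.repr (Pi.single i' 1) j *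
        ∑ i, eval (up b z) (pderiv i F) * b j i := by
      simp only [Finset.mul_sum]
      rw [Finset.sum_comm]
      have h3 : ∀ i, ∑ j, b.repr (Pi.single i' 1) j * (eval (up b z) (pderiv i F) * b j i) =
          eval (up b z) (pderiv i F) * if i = i' then 1 else 0 := by
        intro i
        rw [← sum_repr b i' i, Finset.mul_sum]
        refine Finset.sum_congr rfl fun j _ => ?_
        ring
      rw [Finset.sum_congr rfl fun i _ => h3 i, Finset.sum_eq_single i']
      · rw [if_pos rfl, mul_one]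
      · intro a _ ha
        rw [if_neg ha, mul_zero]
      · intro h
        exact absurd (Finset.mem_univ _) h
    rw [h2]
    refine Finset.sum_eq_zero fun j _ => ?_
    rw [h0, mul_zero]
  rw [← dn_up b z, h1]
  funext j
  unfold dn
  simp

theorem gp_dn {F : MvPolynomial (Fin N) ℂ} {M : Type} [Field M] [Algebra ℂ M] {x : Fin N → M}
    (h : Gp F x) : Gp (bf b F) (dn b x) := by
  refine ⟨by rw [aeval_bf, up_dn]; exact h.1, fun e H hH h0 => ?_⟩
  obtain ⟨B, hB⟩ := h.2 e (df b H) (df_hom b hH) (by rw [aeval_df]; exact h0)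
  refine ⟨bf b B, ?_⟩
  have h1 : bf b (df b H) = bf b F * bf b B := by
    rw [hB]
    exact map_mul (aeval (up b X)) F B
  rwa [bf_df] at h1

theorem gp_up {F : MvPolynomial (Fin N) ℂ} {M : Type} [Field M] [Algebra ℂ M] {z : Fin n → M}
    (h : Gp (bf b F) z) : Gp F (up b z) := by
  refine ⟨by rw [← aeval_bf]; exact h.1, fun e H hH h0 => ?_⟩
  obtain ⟨B, hB⟩ := h.2 e (bf b H) (bf_hom b hH) (by rw [aeval_bf]; exact h0)
  refine ⟨df b B, ?_⟩
  have h1 : df b (bf b H) = df b (bf b F) * df b B := by
    rw [hB]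
    exact map_mul (aeval (dn b X)) (bf b F) B
  rwa [df_bf, df_bf] at h1

theorem ratio_dn {M : Type} [Field M] [Algebra ℂ M] (x : Fin N → M) (hx : ∃ i, x i ≠ 0)
    (hy : ∃ j, dn b x j ≠ 0) : ratioField (dn b x) = ratioField x := by
  apply le_antisymm
  · refine ratioField_le x hx _ fun i => ⟨df b (X i), df_hom b (isHomogeneous_X _ _), ?_⟩
    rw [aeval_df, aeval_X]
  · refine ratioField_le _ hy _ fun i => ⟨bf b (X i), bf_hom b (isHomogeneous_X _ _), ?_⟩
    rw [aeval_bf, up_dn, aeval_X]

theorem ratio_up {M : Type} [Field M] [Algebra ℂ M] (z : Fin n → M) (hz : ∃ i, z i ≠ 0)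
    (hy : ∃ j, up b z j ≠ 0) : ratioField (up b z) = ratioField z := by
  have h1 := ratio_dn b (up b z) hy (by rw [dn_up]; exact hz)
  rw [dn_up] at h1
  exact h1.symm

end

end Pool.Agent.R845.CL
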