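import Mathlib
import Pool.Agent.R845.CL.Gl
import Pool.Agent.R845.CL.Fl
import Pool.Agent.R845.E3.Sections2
import Pool.Agent.R845.E3.Plane
import Pool.Agent.R845.E3.Evn
import Pool.Agent.R845.E3.Spr
import Pool.Agent.R845.E3.Desc
import Pool.Agent.R845.E3.NoIso0
import Pool.Agent.R845.E3.NoIso1

/-! # Project CL: odd families over lines give a rational section over a plane -/

set_option autoImplicit false

namespace Pool.Agent.R845.CL

open MvPolynomial Pool.Agent.Y201.C3 Pool.Agent.R845.E3 Pool.Agent.R845.T2 Pool.Agent.TH314.PD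
open Module IntermediateField

noncomputable section

theorem basis_adapt {k m : ℕ} (hkm : k + m = 4) (W : Submodule ℂ (Fin 6 → ℂ))
    (hW : finrank ℂ W = k + 1) :
    ∃ b : Basis (Fin (k + 1 + (m + 1))) ℂ (Fin 6 → ℂ), (∀ i, b (Fin.castAdd (m + 1) i) ∈ W) ∧
      ∀ v ∈ W, ∀ j, b.repr v (Fin.natAdd (k + 1) j) = 0 := by
  set bW := Module.finBasisOfFinrankEq ℂ W hW with hbW
  have hu : LinearIndependent ℂ (fun i => (bW i : Fin 6 → ℂ)) :=
    bW.linearIndependent.map' W.subtype (Submodule.ker_subtype W)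
  obtain ⟨b0, hb0⟩ := basis_ext (n := 6) (p := k + 1) (q := m + 1) (by omega) _ hu
  have h1 : ∀ i, (b0.reindex finSumFinEquiv) (Fin.castAdd (m + 1) i) = bW i := by
    intro i
    rw [Basis.reindex_apply, finSumFinEquiv_symm_apply_castAdd, hb0]
  refine ⟨b0.reindex finSumFinEquiv, fun i => ?_, fun v hv j => ?_⟩
  · rw [h1]
    exact (bW i).2
  · have h2 : v = ∑ i, bW.repr ⟨v, hv⟩ i • (b0.reindex finSumFinEquiv) (Fin.castAdd (m + 1) i) := by
      have h3 := congrArg Subtype.val (bW.sum_repr ⟨v, hv⟩)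
      refine Eq.trans h3.symm ?_
      simp only [h1, Submodule.coe_sum, Submodule.coe_smul]
    rw [h2, map_sum, Finsupp.finsetSum_apply]
    refine Finset.sum_eq_zero fun i _ => ?_
    rw [map_smul, Finsupp.smul_apply, Basis.repr_self, Finsupp.single_apply, if_neg, smul_zero]
    intro h
    have h4 := congrArg Fin.val h
    simp only [Fin.val_natAdd, Fin.val_castAdd] at h4
    omega

theorem basis_plane (u : Fin 3 → Fin 6 → ℂ) (hu : LinearIndependent ℂ u) :
    ∃ b : Basis (Fin 6) ℂ (Fin 6 → ℂ), ∀ a, b (pl a) = u a := by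
  obtain ⟨b0, hb0⟩ := basis_ext (n := 6) (p := 3) (q := 3) (by omega) _ hu
  have hbij : Function.Bijective (Sum.elim pl ![2, 3, 4] : Fin 3 ⊕ Fin 3 → Fin 6) := by decide
  refine ⟨b0.reindex (Equiv.ofBijective _ hbij), fun a => ?_⟩
  rw [Basis.reindex_apply, ← hb0 a]
  congr 1
  rw [Equiv.symm_apply_eq]
  rfl

theorem mem_span {r : ℕ} {A : Fin r → Fin 6 → ℂ} {v : Fin 6 → ℂ}
    (hv : v ∈ Submodule.span ℂ (Set.range A)) : ∃ a : Fin r → ℂ, ∀ i, v i = ∑ l, a l * A l i := by
  obtain ⟨a, ha⟩ := (Submodule.mem_span_range_iff_exists_fun ℂ).1 hv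
  refine ⟨a, fun i => ?_⟩
  rw [← ha, Finset.sum_apply]
  exact Finset.sum_congr rfl fun l _ => rfl

theorem up_append {k m : ℕ} (b : Basis (Fin (k + 1 + (m + 1))) ℂ (Fin 6 → ℂ)) {R : Type}
    [CommRing R] [Algebra ℂ R] (u : Fin (k + 1) → R) (v : Fin (m + 1) → R) :
    up b (Fin.append u v) = fun i => ∑ j, u j * algebraMap ℂ R (b (Fin.castAdd (m + 1) j) i) +
      ∑ j, v j * algebraMap ℂ R (b (Fin.natAdd (k + 1) j) i) := by
  funext i
  unfold up
  rw [Fin.sum_univ_add]
  simp only [Fin.append_left, Fin.append_right]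

theorem dn_lin {n : ℕ} (b : Basis (Fin n) ℂ (Fin 6 → ℂ)) {M : Type} [Field M] [Algebra ℂ M]
    {r : ℕ} (A : Fin r → Fin 6 → ℂ) (s t : M) (w : Fin r → M) (β γ x : Fin 6 → M)
    (hx : ∀ i, x i = s * (t * β i + γ i) + ∑ l, w l * algebraMap ℂ M (A l i)) (j : Fin n)
    (hA : ∀ l, b.repr (A l) j = 0) : dn b x j = s * (t * dn b β j + dn b γ j) := by
  have h1 : ∀ i, x i * algebraMap ℂ M (b.repr (Pi.single i 1) j) =
      s * (t * (β i * algebraMap ℂ M (b.repr (Pi.single i 1) j)) +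
        γ i * algebraMap ℂ M (b.repr (Pi.single i 1) j)) +
        ∑ l, w l * algebraMap ℂ M (A l i * b.repr (Pi.single i 1) j) := by
    intro i
    rw [hx, add_mul, Finset.sum_mul]
    congr 1
    · ring
    · refine Finset.sum_congr rfl fun l _ => ?_
      rw [map_mul]
      ring
  unfold dn
  rw [Finset.sum_congr rfl fun i _ => h1 i, Finset.sum_add_distrib, Finset.sum_comm]
  have h2 : ∀ l, ∑ i, w l * algebraMap ℂ M (A l i * b.repr (Pi.single i 1) j) = 0 := by
    intro l
    rw [← Finset.mul_sum, ← map_sum, repr_sum, hA, map_zero, mul_zero]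
  rw [Finset.sum_eq_zero fun l _ => h2 l, add_zero, ← Finset.mul_sum, Finset.sum_add_distrib,
    ← Finset.mul_sum]

theorem dn_mem {n : ℕ} (b : Basis (Fin n) ℂ (Fin 6 → ℂ)) {M : Type} [Field M] [Algebra ℂ M]
    (L : IntermediateField ℂ M) (β : Fin 6 → M) (hβ : ∀ i, β i ∈ L) (j : Fin n) :
    dn b β j ∈ L := by
  unfold dn
  exact sum_mem fun i _ => mul_mem (hβ i) (L.algebraMap_mem _)

section

variable {F : MvPolynomial (Fin 6) ℂ} {r : ℕ} (A : Fin r → Fin 6 → ℂ)

theorem vanW_of {k m : ℕ} (b : Basis (Fin (k + 1 + (m + 1))) ℂ (Fin 6 → ℂ))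
    (hA : ∀ a : Fin r → ℂ, eval (fun i => ∑ l, a l * A l i) F = 0)
    (hb : ∀ i, b (Fin.castAdd (m + 1) i) ∈ Submodule.span ℂ (Set.range A)) : VanW (bf b F) := by
  unfold VanW
  apply MvPolynomial.funext
  intro u
  rw [map_zero, aeval_bf]
  have h1 : eval u (aeval (up b (Fin.append (X : Fin (k + 1) → MvPolynomial (Fin (k + 1)) ℂ) 0)) F) =
      aeval (up b (Fin.append u (0 : Fin (m + 1) → ℂ))) F := by
    have h2 := comp_aeval_apply (f := up b (Fin.append (X : Fin (k + 1) →
      MvPolynomial (Fin (k + 1)) ℂ) 0)) (aeval u) F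
    rw [aeval_eq_eval] at h2
    rw [h2]
    have h3 := up_map b (aeval u : MvPolynomial (Fin (k + 1)) ℂ →ₐ[ℂ] ℂ) (Fin.append (X : Fin (k + 1) →
      MvPolynomial (Fin (k + 1)) ℂ) 0)
    rw [aeval_eq_eval] at h3
    rw [h3]
    congr 2
    congr 1
    funext i
    refine Fin.addCases (fun j => ?_) (fun j => ?_) i
    · rw [Fin.append_left, Fin.append_left, eval_X]
    · rw [Fin.append_right, Fin.append_right, Pi.zero_apply, Pi.zero_apply, map_zero]
  rw [h1, up_append]
  have h4 : (fun i => ∑ j, u j * algebraMap ℂ ℂ (b (Fin.castAdd (m + 1) j) i) +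
      ∑ j, (0 : Fin (m + 1) → ℂ) j * algebraMap ℂ ℂ (b (Fin.natAdd (k + 1) j) i)) ∈
      Submodule.span ℂ (Set.range A) := by
    have h5 : (fun i => ∑ j, u j * algebraMap ℂ ℂ (b (Fin.castAdd (m + 1) j) i) +
        ∑ j, (0 : Fin (m + 1) → ℂ) j * algebraMap ℂ ℂ (b (Fin.natAdd (k + 1) j) i)) =
        ∑ j, u j • b (Fin.castAdd (m + 1) j) := by
      funext i
      rw [Finset.sum_apply]
      simp
    rw [h5]
    exact Submodule.sum_mem _ fun j _ => Submodule.smul_mem _ _ (hb j)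
  obtain ⟨a, ha⟩ := mem_span h4
  rw [aeval_eq_eval, ← hA a]
  congr 1
  congr 1
  funext i
  exact ha i

variable {M : Type} [Field M] [Algebra ℂ M]

theorem iso_of_basis (hF : F.IsHomogeneous 3) (hsm : Sm F) {k m : ℕ}
    (b : Basis (Fin (k + 1 + (m + 1))) ℂ (Fin 6 → ℂ))
    (hA : ∀ a : Fin r → ℂ, eval (fun i => ∑ l, a l * A l i) F = 0)
    (hb : ∀ i, b (Fin.castAdd (m + 1) i) ∈ Submodule.span ℂ (Set.range A))
    (hbA : ∀ l j, b.repr (A l) (Fin.natAdd (k + 1) j) = 0)
    (L : IntermediateField ℂ M) (t : M)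
    (ht : Transcendental L t) (hM : adjoin L {t} = ⊤) (x : Fin 6 → M) (hG : Gp F x)
    (hodd : Odd (finrank (ratioField x) M)) (s : M) (w : Fin r → M) (β γ : Fin 6 → M)
    (hβ : ∀ i, β i ∈ L) (hγ : ∀ i, γ i ∈ L)
    (hx : ∀ i, x i = s * (t * β i + γ i) + ∑ l, w l * algebraMap ℂ M (A l i)) :
    Iso (bf b F) ∧ Odd (finrank (ratioField (dn b x)) M) := by
  have hx0 : ∀ i, x i ≠ 0 := coord_ne_zero hF (by norm_num) x hG.2
  have hG' := gp_dn b hG
  have hy0 : ∀ i, dn b x i ≠ 0 := coord_ne_zero (bf_hom b hF) (by norm_num) _ hG'.2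
  have hodd' : Odd (finrank (ratioField (dn b x)) M) := by
    rw [ratio_dn b x ⟨0, hx0 0⟩ ⟨Fin.castAdd (m + 1) 0, hy0 _⟩]
    exact hodd
  refine ⟨?_, hodd'⟩
  exact sec_iso spr desc (bf_hom b hF) (bf_sm b hsm) (vanW_of A b hA hb) L t ht hM (dn b x) hG'
    hodd' s (fun j => dn b β (Fin.natAdd (k + 1) j)) (fun j => dn b γ (Fin.natAdd (k + 1) j))
    (fun j => dn_mem b L β hβ _) (fun j => dn_mem b L γ hγ _)
    fun j => dn_lin b A s t w β γ x hx _ fun l => hbA l j

/-- the projection from the span of the `A_l` has a rational section -/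
def Sect {r : ℕ} (F : MvPolynomial (Fin 6) ℂ) (A : Fin r → Fin 6 → ℂ) : Prop :=
  ∃ e : Fin 3 → Fin 6 → ℂ, Submodule.span ℂ (Set.range A) ⊔ Submodule.span ℂ (Set.range e) = ⊤ ∧
    ∃ (l : MvPolynomial (Fin 2) ℂ) (w : Fin r → MvPolynomial (Fin 2) ℂ), l ≠ 0 ∧
      aeval (fun i => l * (C (e 0 i) + X 0 * C (e 1 i) + X 1 * C (e 2 i)) +
        ∑ a, w a * C (A a i)) F = 0

/-- **classification, first half** -/
theorem sect_of_family (hF : F.IsHomogeneous 3) (hsm : Sm F)
    (hA : ∀ a : Fin r → ℂ, eval (fun i => ∑ l, a l * A l i) F = 0)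
    (L : IntermediateField ℂ M) (t : M)
    (ht : Transcendental L t) (hM : adjoin L {t} = ⊤) (x : Fin 6 → M) (hG : Gp F x)
    (hodd : Odd (finrank (ratioField x) M)) (s : M) (w : Fin r → M) (β γ : Fin 6 → M)
    (hβ : ∀ i, β i ∈ L) (hγ : ∀ i, γ i ∈ L)
    (hx : ∀ i, x i = s * (t * β i + γ i) + ∑ l, w l * algebraMap ℂ M (A l i)) :
    finrank ℂ (Submodule.span ℂ (Set.range A)) = 3 ∧ Sect F A := by
  classical
  have hF0 : F ≠ 0 := ne_zero_of_smooth (m := 5) hsm
  set W := Submodule.span ℂ (Set.range A) with hWd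
  have hAW : ∀ l, A l ∈ W := fun l => Submodule.subset_span ⟨l, rfl⟩
  have hle6 : finrank ℂ W ≤ 6 := by
    have h1 := Submodule.finrank_le W
    rwa [Module.finrank_fin_fun] at h1
  -- the dimension of `W` is not six
  have hne6 : finrank ℂ W ≠ 6 := by
    intro h6
    apply hF0
    apply MvPolynomial.funext
    intro u
    have h7 : W = ⊤ := by
      apply Submodule.eq_top_of_finrank_eq
      rw [h6, Module.finrank_fin_fun]
    have h8 : u ∈ W := by
      rw [h7]
      exact Submodule.mem_top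
    obtain ⟨a, ha⟩ := mem_span h8
    rw [map_zero, ← hA a]
    congr 1
    congr 1
    funext i
    exact ha i
  -- nor zero
  have hne0 : finrank ℂ W ≠ 0 := by
    intro h0
    have hW0 : W = ⊥ := Submodule.finrank_eq_zero.1 h0
    have hA0 : ∀ l, A l = 0 := by
      intro l
      have h1 := hAW l
      rw [hW0] at h1
      exact (Submodule.mem_bot ℂ).1 h1
    have h1 : ∀ i, x i = s * (t * β i + γ i) := by
      intro i
      rw [hx]
      simp only [hA0, Pi.zero_apply, map_zero, mul_zero, Finset.sum_const_zero, add_zero]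
    have hs : s ≠ 0 := by
      intro h0
      exact coord_ne_zero hF (by norm_num) x hG.2 0 (by rw [h1, h0, zero_mul])
    obtain ⟨h2, h3⟩ := gp_smul hF hs h1
    rw [h2] at hG
    rw [h3] at hodd
    have hirr : Irreducible F :=
      Pool.Agent.Y201.LI.irreducible_of_generic hF hF0 _ hG.1 hG.2
    have h4 := Pool.Agent.Y201.LI.hT1 6 3 F hF (by norm_num) hirr hsm M L t ht β γ
      hβ hγ hG.1 hG.2
    exact (Nat.not_even_iff_odd.2 hodd) (even_iff_two_dvd.2 h4)
  obtain ⟨k, hk⟩ : ∃ k, finrank ℂ W = k + 1 := ⟨finrank ℂ W - 1, by omega⟩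
  obtain ⟨m, hkm⟩ : ∃ m, k + m = 4 := ⟨4 - k, by omega⟩
  obtain ⟨b, hb, hbW⟩ := basis_adapt hkm W hk
  have hVW := vanW_of A b hA hb
  have hle := le_of_smooth (bf_hom b hF) (bf_sm b hsm) hVW
  obtain ⟨hiso, hodd'⟩ := iso_of_basis A hF hsm b hA hb (fun l j => hbW _ (hAW l) j) L t ht hM x
    hG hodd s w β γ hβ hγ hx
  have hk012 : k = 0 ∨ k = 1 ∨ k = 2 := by omega
  obtain rfl | rfl | rfl := hk012
  · exact absurd hiso (no_iso0 (by omega) (bf_hom b hF) (bf_sm b hsm) hVW)
  · exfalso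
    obtain rfl : m = 3 := by omega
    by_cases hNP : ∀ y : Fin (3 + 1) → ℂ, y ≠ 0 → ∃ a b' c : ℂ,
      eval (Fin.append ![a, b'] (fun j => c * y j)) (bf b F) ≠ 0
    · exact no_iso1 (bf_hom b hF) (bf_sm b hsm) hVW hNP hiso
    push Not at hNP
    obtain ⟨y, hy, hyF⟩ := hNP
    -- the plane
    set p : Fin 6 → ℂ := up b (Fin.append (0 : Fin 2 → ℂ) y) with hp
    set b0 : Fin 6 → ℂ := b (Fin.castAdd 4 0) with hb0
    set b1 : Fin 6 → ℂ := b (Fin.castAdd 4 1) with hb1
    have hcomb : ∀ g : Fin 3 → ℂ, up b (Fin.append (![g 0, g 1] : Fin 2 → ℂ) (fun j => g 2 * y j)) =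
        fun i => g 0 * b0 i + g 1 * b1 i + g 2 * p i := by
      intro g
      rw [hp, up_append, up_append]
      funext i
      simp only [Pi.zero_apply, zero_mul, Finset.sum_const_zero, zero_add,
        Algebra.algebraMap_self, RingHom.id_apply, Finset.mul_sum]
      refine congrArg₂ (fun a b : ℂ => a + b) (Fin.sum_univ_two _)
        (Finset.sum_congr rfl fun j _ => by ring)
    have hu : LinearIndependent ℂ ![b0, b1, p] := by
      rw [Fintype.linearIndependent_iff]
      intro g hg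
      have h1 : up b (Fin.append (![g 0, g 1] : Fin 2 → ℂ) (fun j => g 2 * y j)) = 0 := by
        rw [hcomb, ← hg, Fin.sum_univ_three]
        rfl
      have h2 := congrArg (dn b) h1
      rw [dn_up] at h2
      have h3 : dn b (0 : Fin 6 → ℂ) = 0 := by
        funext j
        unfold dn
        simp
      rw [h3] at h2
      have g0 : g 0 = 0 := by
        have h4 := congrFun h2 (Fin.castAdd 4 0)
        rwa [Fin.append_left] at h4
      have g1 : g 1 = 0 := by
        have h4 := congrFun h2 (Fin.castAdd 4 1)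
        rwa [Fin.append_left] at h4
      have g2 : g 2 = 0 := by
        by_contra hne
        apply hy
        funext j
        have h4 := congrFun h2 (Fin.natAdd 2 j)
        rw [Fin.append_right, Pi.zero_apply] at h4
        exact (mul_eq_zero.1 h4).resolve_left hne
      intro i
      fin_cases i
      · exact g0
      · exact g1
      · exact g2
    obtain ⟨b2, hb2⟩ := basis_plane _ hu
    have e0 : b2 0 = b0 := hb2 0
    have e1 : b2 1 = b1 := hb2 1
    have e5 : b2 5 = p := hb2 2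
    have hW2 : ∀ i : Fin 2, b2 (Fin.castAdd 4 i) ∈ W := by
      intro i
      fin_cases i
      · change b2 0 ∈ W
        rw [e0]
        exact hb 0
      · change b2 1 ∈ W
        rw [e1]
        exact hb 1
    have hr2 : ∀ v ∈ W, ∀ j : Fin 4, b2.repr v (Fin.natAdd 2 j) = 0 := by
      intro v hv j
      have h1 : v = b.repr v (Fin.castAdd 4 0) • b2 0 + b.repr v (Fin.castAdd 4 1) • b2 1 := by
        conv_lhs => rw [← b.sum_repr v]
        rw [Fin.sum_univ_add, Fin.sum_univ_two, e0, e1,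
          Finset.sum_eq_zero (fun j _ => by rw [hbW v hv j, zero_smul]), add_zero]
      rw [h1, map_add, map_smul, map_smul, Finsupp.add_apply, Finsupp.smul_apply,
        Finsupp.smul_apply, Basis.repr_self, Basis.repr_self, Finsupp.single_apply,
        Finsupp.single_apply, if_neg, if_neg, smul_zero, smul_zero, add_zero]
      · intro h
        have h4 := congrArg Fin.val h
        simp only [Fin.val_natAdd] at h4
        have h5 : ((1 : Fin 6) : ℕ) = 1 := rfl
        omega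
      · intro h
        have h4 := congrArg Fin.val h
        simp only [Fin.val_natAdd] at h4
        have h5 : ((0 : Fin 6) : ℕ) = 0 := rfl
        omega
    obtain ⟨hiso2, hodd2⟩ := iso_of_basis (k := 1) (m := 3) A hF hsm b2 hA hW2
      (fun l j => hr2 _ (hAW l) j) L t ht hM x hG hodd s w β γ hβ hγ hx
    refine no_iso_plane (bf_hom b2 hF) (bf_sm b2 hsm) (vanW_of (k := 1) (m := 3) A b2 hA hW2) ?_
      (dn b2 x) (gp_dn b2 hG) hodd2 hiso2
    intro u
    have h1 : eval (em u) (bf b2 F) = aeval (up b2 (em u)) F := by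
      rw [← aeval_bf, aeval_eq_eval]
    rw [h1]
    have h2 : up b2 (em u) = up b (Fin.append (![u 0, u 1] : Fin 2 → ℂ) (fun j => u 2 * y j)) := by
      rw [hcomb]
      funext i
      unfold up
      rw [Fin.sum_univ_six]
      change u 0 * algebraMap ℂ ℂ (b2 0 i) + u 1 * algebraMap ℂ ℂ (b2 1 i) +
        0 * algebraMap ℂ ℂ (b2 2 i) + 0 * algebraMap ℂ ℂ (b2 3 i) +
        0 * algebraMap ℂ ℂ (b2 4 i) + u 2 * algebraMap ℂ ℂ (b2 5 i) = _
      rw [e0, e1, e5]
      simp only [Algebra.algebraMap_self, RingHom.id_apply]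
      ring
    rw [h2]
    have h3 : aeval (up b (Fin.append (![u 0, u 1] : Fin 2 → ℂ) (fun j => u 2 * y j))) F =
        aeval (Fin.append (![u 0, u 1] : Fin 2 → ℂ) (fun j => u 2 * y j)) (bf b F) := by
      rw [aeval_bf]
    rw [h3, aeval_eq_eval]
    exact hyF _ _ _
  · obtain rfl : m = 2 := by omega
    refine ⟨hk, ?_⟩
    obtain ⟨c, l, ⟨hl, hc⟩ | ⟨hc, hc'⟩⟩ := hiso
    swap
    · exact (Trans.alt2 evn 2 2 _ (bf_hom b hF) (bf_sm b hsm) hVW c hc hc').elim
    have h1 : ∀ i : Fin 3, ∃ a : Fin r → ℂ, ∀ i', b (Fin.castAdd 3 i) i' = ∑ l, a l * A l i' :=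
      fun i => mem_span (hb i)
    choose a ha using h1
    refine ⟨fun j => b (Fin.natAdd 3 j), ?_, l, fun q => ∑ i, c i * C (a i q), hl, ?_⟩
    · rw [eq_top_iff, ← b.span_eq, Submodule.span_le]
      rintro _ ⟨i, rfl⟩
      refine Fin.addCases (fun j => ?_) (fun j => ?_) i
      · exact Submodule.mem_sup_left (hb j)
      · exact Submodule.mem_sup_right (Submodule.subset_span ⟨j, rfl⟩)
    · rw [aeval_bf, up_append] at hc
      rw [← hc]
      congr 2
      congr 1
      funext i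
      have h2 : (∑ q, (∑ i, c i * C (a i q)) * C (A q i) : MvPolynomial (Fin 2) ℂ) =
          ∑ j, c j * algebraMap ℂ (MvPolynomial (Fin 2) ℂ) (b (Fin.castAdd 3 j) i) := by
        simp only [Finset.sum_mul]
        rw [Finset.sum_comm]
        refine Finset.sum_congr rfl fun j _ => ?_
        rw [ha j i, map_sum, Finset.mul_sum]
        refine Finset.sum_congr rfl fun q _ => ?_
        rw [algebraMap_eq, C_mul]
        ring
      rw [h2, add_comm]
      congr 1
      rw [Fin.sum_univ_three]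
      change l * (C (b (Fin.natAdd 3 0) i) + X 0 * C (b (Fin.natAdd 3 1) i) +
        X 1 * C (b (Fin.natAdd 3 2) i)) = l * 1 * C (b (Fin.natAdd 3 0) i) +
        l * X 0 * C (b (Fin.natAdd 3 1) i) + l * X 1 * C (b (Fin.natAdd 3 2) i)
      ring

end

end

end Pool.Agent.R845.CL
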