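import Mathlib
import Pool.Agent.R845.CL.Cls

/-! # Project CL: a birational family over lines from a rational section -/

set_option autoImplicit false

namespace Pool.Agent.R845.CL

open MvPolynomial Pool.Agent.Y201.C3 Pool.Agent.R845.E3 Pool.Agent.R845.T2 Pool.Agent.TH314.PD
open Module IntermediateField

noncomputable section

/-- the embedding -/
abbrev io : MvPolynomial (Fin 4) ℂ →ₐ[ℂ] Rn 4 := IsScalarTower.toAlgHom ℂ (MvPolynomial (Fin 4) ℂ) (Rn 4)

theorem io_inj : Function.Injective io := IsFractionRing.injective (MvPolynomial (Fin 4) ℂ) (Rn 4)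

/-- the field generated by the first three variables -/
def L3 : IntermediateField ℂ (Rn 4) := adjoin ℂ ((fun i => io (X i)) '' ({3}ᶜ : Set (Fin 4)))

theorem io_trans : Transcendental L3 (io (X 3)) :=
  (Pool.Agent.Y201.LI.linear_poly (fun i : Fin 4 => io (X i)) (by
    have h1 := (algebraicIndependent_X (Fin 4) ℂ).map' (f := io) io_inj
    exact h1) 3).1

theorem adjoin_L3 : adjoin L3 {io (X 3)} = ⊤ := by
  rw [eq_top_iff]
  rintro y -
  have hX : ∀ s : Fin 4, io (X s) ∈ adjoin L3 {io (X 3)} := by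
    intro s
    by_cases hs : s = 3
    · rw [hs]
      exact subset_adjoin _ _ rfl
    · have h1 : io (X s) ∈ L3 := subset_adjoin ℂ _ ⟨s, hs, rfl⟩
      exact (adjoin L3 {io (X 3)}).algebraMap_mem ⟨io (X s), h1⟩
  have hP : ∀ q : MvPolynomial (Fin 4) ℂ, io q ∈ adjoin L3 {io (X 3)} := by
    intro q
    induction q using MvPolynomial.induction_on with
    | C a =>
      have h1 : io (C a) ∈ L3 := by
        rw [← algebraMap_eq, AlgHom.commutes]
        exact L3.algebraMap_mem a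
      exact (adjoin L3 {io (X 3)}).algebraMap_mem ⟨io (C a), h1⟩
    | add p q hp hq =>
      rw [map_add]
      exact add_mem hp hq
    | mul_X p j hp =>
      rw [map_mul]
      exact mul_mem hp (hX j)
  obtain ⟨a, b, -, hy⟩ := IsFractionRing.div_surjective (A := MvPolynomial (Fin 4) ℂ) y
  rw [← hy]
  exact div_mem (hP a) (hP b)

variable {F : MvPolynomial (Fin 6) ℂ} {r : ℕ} (A : Fin r → Fin 6 → ℂ)

/-- **classification, second half** -/
theorem family_of_sect (hF : F.IsHomogeneous 3) (hsm : Sm F)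
    (hA : ∀ a : Fin r → ℂ, eval (fun i => ∑ l, a l * A l i) F = 0)
    (h3 : finrank ℂ (Submodule.span ℂ (Set.range A)) = 3) (hS : Sect F A) :
    ∃ G : Fin 6 → MvPolynomial (Fin 4) ℂ, Gp F (fun i => io (G i)) ∧
      ratioField (fun i => io (G i)) = ⊤ ∧
      ∃ (s : Rn 4) (w : Fin r → Rn 4) (β γ : Fin 6 → Rn 4), (∀ i, β i ∈ L3) ∧ (∀ i, γ i ∈ L3) ∧
        ∀ i, io (G i) = s * (io (X 3) * β i + γ i) + ∑ l, w l * algebraMap ℂ (Rn 4) (A l i) := by
  classical
  obtain ⟨e, he, l, w, hl, hrel⟩ := hS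
  set W := Submodule.span ℂ (Set.range A) with hWd
  have hAW : ∀ l, A l ∈ W := fun l => Submodule.subset_span ⟨l, rfl⟩
  set bW := Module.finBasisOfFinrankEq ℂ W h3 with hbW
  set v : Fin (2 + 1 + (2 + 1)) → Fin 6 → ℂ :=
    Fin.append (fun i : Fin 3 => (bW i : Fin 6 → ℂ)) e with hv
  have hspan : ⊤ ≤ Submodule.span ℂ (Set.range v) := by
    rw [← he]
    refine sup_le ?_ ?_
    · intro z hz
      have h1 := congrArg Subtype.val (bW.sum_repr ⟨z, hz⟩)
      have h2 : z = ∑ i, bW.repr ⟨z, hz⟩ i • (bW i : Fin 6 → ℂ) := by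
        refine Eq.trans h1.symm ?_
        simp only [Submodule.coe_sum, Submodule.coe_smul]
      rw [h2]
      refine Submodule.sum_mem _ fun i _ => Submodule.smul_mem _ _ ?_
      exact Submodule.subset_span ⟨Fin.castAdd 3 i, by rw [hv, Fin.append_left]⟩
    · rw [Submodule.span_le]
      rintro _ ⟨j, rfl⟩
      exact Submodule.subset_span ⟨Fin.natAdd 3 j, by rw [hv, Fin.append_right]⟩
  set b : Basis (Fin (2 + 1 + (2 + 1))) ℂ (Fin 6 → ℂ) :=
    basisOfTopLeSpanOfCardEqFinrank v hspan (by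
      rw [Module.finrank_fin_fun, Fintype.card_fin]) with hb
  have hbc : ∀ i : Fin 3, b (Fin.castAdd 3 i) = bW i := by
    intro i
    rw [hb, coe_basisOfTopLeSpanOfCardEqFinrank, hv, Fin.append_left]
  have hbn : ∀ j : Fin 3, b (Fin.natAdd 3 j) = e j := by
    intro j
    rw [hb, coe_basisOfTopLeSpanOfCardEqFinrank, hv, Fin.append_right]
  have hVW := vanW_of (k := 2) (m := 2) A b hA (fun i => by rw [hbc]; exact (bW i).2)
  -- the section in the new coordinates
  set c : Fin (2 + 1) → MvPolynomial (Fin 2) ℂ :=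
    fun i => ∑ a, w a * C (bW.repr ⟨A a, hAW a⟩ i) with hc
  have hsec : aeval (Fin.append c (fun j => l * yv ℂ 2 j)) (bf b F) = 0 := by
    rw [aeval_bf, up_append, ← hrel]
    refine congrArg (fun z : Fin 6 → MvPolynomial (Fin 2) ℂ => aeval z F) (funext fun i => ?_)
    have h2 : ∑ j, c j * algebraMap ℂ (MvPolynomial (Fin 2) ℂ) (b (Fin.castAdd 3 j) i) =
        ∑ a, w a * C (A a i) := by
      rw [hc]
      simp only [Finset.sum_mul]
      rw [Finset.sum_comm]
      refine Finset.sum_congr rfl fun a _ => ?_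
      have h4 : A a i = ∑ j, bW.repr ⟨A a, hAW a⟩ j * (bW j : Fin 6 → ℂ) i := by
        have h5 := congrArg Subtype.val (bW.sum_repr ⟨A a, hAW a⟩)
        have h6 := congrFun h5 i
        refine Eq.trans h6.symm ?_
        simp only [Submodule.coe_sum, Submodule.coe_smul, Finset.sum_apply, Pi.smul_apply,
          smul_eq_mul]
      rw [h4, map_sum, Finset.mul_sum]
      refine Finset.sum_congr rfl fun j _ => ?_
      rw [hbc, algebraMap_eq, C_mul]
      ring
    rw [h2, add_comm]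
    refine congrArg (fun z : MvPolynomial (Fin 2) ℂ => z + ∑ a, w a * C (A a i)) ?_
    rw [Fin.sum_univ_three]
    change l * 1 * C (b (Fin.natAdd 3 0) i) +
      l * X 0 * C (b (Fin.natAdd 3 1) i) + l * X 1 * C (b (Fin.natAdd 3 2) i) =
      l * (C (e 0 i) + X 0 * C (e 1 i) + X 1 * C (e 2 i))
    rw [hbn, hbn, hbn]
    ring
  have hF1 := bf_hom b hF
  have hsm1 := bf_sm b hsm
  obtain ⟨T, hT, hFT⟩ := exists_tri (bf b F) hF1
  have hx' : aeval (Rat.xa c l)
      (Bg T X X X : MvPolynomial (Fin (2 + 1 + (2 + 1))) ℂ) = 0 := by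
    rw [← hFT]
    exact hsec
  have ha := Rat.a_ne hT (by rw [← hFT]; exact hF1) (by rw [← hFT]; exact hsm1) c l hl hx'
  have hb0 := Rat.b_ne hT (by rw [← hFT]; exact hsm1) (by rw [← hFT]; exact hVW) c l hl
  set x0 : Fin (2 + 1 + (2 + 1)) → MvPolynomial (Fin (2 + 2)) ℂ :=
    fun i => Rat.rh 2 2 (Rat.xa c l i) with hx0
  set a1 := Bg T x0 x0 (Rat.pw 2 2) with had
  set b1 := Bg T x0 (Rat.pw 2 2) (Rat.pw 2 2) with hbd
  have htop := Rat.top_of c l hl a1 b1 ha hb0
  have hF0 : Bg T x0 x0 x0 = 0 := by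
    have h1 := congrArg (Rat.rh 2 2) hx'
    rw [aeval_frmG, map_Bg, map_zero] at h1
    exact h1
  have hFp : Bg T (Rat.pw 2 2) (Rat.pw 2 2) (Rat.pw 2 2) = 0 :=
    Rat.bg_W hT (by rw [← hFT]; exact hVW) _ _ _
  set G' : Fin (2 + 1 + (2 + 1)) → MvPolynomial (Fin (2 + 2)) ℂ :=
    fun i => b1 * Rat.rh 2 2 (Rat.xa c l i) - a1 * Rat.pw 2 2 i with hG'
  have hGz : aeval G' (bf b F) = 0 := by
    have h0 : aeval G' (Bg T X X X : MvPolynomial (Fin (2 + 1 + (2 + 1))) ℂ) = 0 := by
      rw [aeval_frmG]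
      have h1 : G' = fun i => b1 * x0 i + (-a1) * Rat.pw 2 2 i + 0 * Rat.pw 2 2 i := by
        funext i
        rw [hG', hx0]
        ring
      rw [h1, Bg_span3 hT, hF0, hFp, ← had, ← hbd]
      ring
    rw [hFT]
    exact h0
  set z : Fin (2 + 1 + (2 + 1)) → Rn 4 := fun i => io (G' i) with hz
  have hzt : ratioField z = ⊤ := htop
  have hGp : Gp (bf b F) z := by
    refine Rat.gp_of_top (by omega) (by norm_num) _ hF1 hsm1 _ ?_ hzt
    have h1 := congrArg io hGz
    rw [map_zero, comp_aeval_apply] at h1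
    exact h1
  have hup : (fun i => io (up b G' i)) = up b z := up_map b io G'
  have hGpF := gp_up b hGp
  have hz0 : ∀ i, z i ≠ 0 := coord_ne_zero hF1 (by norm_num) _ hGp.2
  have hu0 : ∀ i, up b z i ≠ 0 := coord_ne_zero hF (by norm_num) _ hGpF.2
  have h5 : ∀ i : Fin 3, ∃ a : Fin r → ℂ, ∀ i', b (Fin.castAdd 3 i) i' = ∑ l, a l * A l i' :=
    fun i => mem_span (by rw [hbc]; exact (bW i).2)
  choose al hal using h5
  refine ⟨up b G', ?_, ?_, io b1 * io (Rat.rh 2 2 l), fun q => ∑ i, z (Fin.castAdd 3 i) *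
    algebraMap ℂ (Rn 4) (al i q), fun i => algebraMap ℂ (Rn 4) (e 2 i),
    fun i => algebraMap ℂ (Rn 4) (e 0 i) + io (X 2) * algebraMap ℂ (Rn 4) (e 1 i), ?_, ?_, ?_⟩
  · rw [hup]
    exact hGpF
  · rw [hup, ratio_up b z ⟨0, hz0 0⟩ ⟨0, hu0 0⟩]
    exact hzt
  · intro i
    exact L3.algebraMap_mem _
  · intro i
    exact add_mem (L3.algebraMap_mem _) (mul_mem (subset_adjoin ℂ _ ⟨2, by decide, rfl⟩)
      (L3.algebraMap_mem _))
  · intro i
    have h6 := congrFun hup i
    rw [show io (up b G' i) = up b z i from h6]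
    have h7 : z = Fin.append (fun i => z (Fin.castAdd 3 i)) (fun j => z (Fin.natAdd 3 j)) := by
      funext i
      refine Fin.addCases (fun j => ?_) (fun j => ?_) i
      · rw [Fin.append_left]
      · rw [Fin.append_right]
    have h7' : up b z i = ∑ j : Fin 3, z (Fin.castAdd 3 j) * algebraMap ℂ (Rn 4)
        (b (Fin.castAdd 3 j) i) + ∑ j : Fin 3, z (Fin.natAdd 3 j) * algebraMap ℂ (Rn 4)
        (b (Fin.natAdd 3 j) i) := by
      conv_lhs => rw [h7, up_append]
    rw [h7']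
    refine (add_comm _ _).trans (congrArg₂ (fun a b : Rn 4 => a + b) ?_ ?_)
    · have h8 : ∀ j : Fin 3, z (Fin.natAdd 3 j) =
          io b1 * io (Rat.rh 2 2 l) * io (Rat.rh 2 2 (yv ℂ 2 j)) := by
        intro j
        rw [hz, hG']
        simp only
        rw [Rat.xa, Rat.pw, Fin.append_right, Fin.append_right, Pi.zero_apply, mul_zero,
          sub_zero, map_mul, map_mul, map_mul]
        ring
      have h9 : Rat.rh 2 2 (yv ℂ 2 0) = 1 := map_one _
      have h10 : Rat.rh 2 2 (yv ℂ 2 1) = X 2 := rename_X _ _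
      have h11 : Rat.rh 2 2 (yv ℂ 2 2) = X 3 := rename_X _ _
      refine (Fin.sum_univ_three _).trans ?_
      rw [h8 0, h8 1, h8 2, h9, h10, h11, hbn 0, hbn 1, hbn 2, map_one]
      ring
    · simp only [Finset.sum_mul]
      rw [Finset.sum_comm]
      refine Finset.sum_congr rfl fun j _ => ?_
      rw [hal j i, map_sum, Finset.mul_sum]
      refine Finset.sum_congr rfl fun q _ => ?_
      rw [map_mul]
      ring

end

end Pool.Agent.R845.CL
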