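import Mathlib
import Pool.Agent.R845.CL.Fam
import Pool.Agent.R915.Q2

/-!
# Line-ruled parametrizations and Hodge classes: definitions and the main equivalence
-/

set_option autoImplicit false

namespace Pool.Agent.R845.CL.Stm

open MvPolynomial
open Pool.Agent.Y95.Q Pool.Agent.Y95.Q.H4 Pool.Agent.R915.Q

/-- `x` is a generic point of the hypersurface `F = 0` with coordinates in an extension field `M` of
the complex numbers: `F` vanishes at `x`, and every form vanishing at `x` is divisible by `F` -/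
def GenericPoint {M : Type} [Field M] [Algebra ℂ M] (F : MvPolynomial (Fin 6) ℂ)
    (x : Fin 6 → M) : Prop :=
  aeval x F = 0 ∧ ∀ (e : ℕ) (H : MvPolynomial (Fin 6) ℂ), H.IsHomogeneous e →
    aeval x H = 0 → F ∣ H

/-- the field generated by the ratios of the coordinates of `x`; for a generic point of `X` it is
the function field of `X` -/
noncomputable def functionField {M : Type} [Field M] [Algebra ℂ M] (x : Fin 6 → M) :
    IntermediateField ℂ M :=
  IntermediateField.adjoin ℂ {z | ∃ i j, z = x i / x j}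

/-- the linear span of the vectors `A 0, …, A (r - 1)` is contained in the hypersurface `F = 0` -/
def SpanInside {r : ℕ} (F : MvPolynomial (Fin 6) ℂ) (A : Fin r → Fin 6 → ℂ) : Prop :=
  ∀ a : Fin r → ℂ, eval (fun i => ∑ l, a l * A l i) F = 0

/-- the image of the point `x` under the projection from the linear span `W` of the vectors `A_l` is
the point `t β + γ` of a line over `L` (or a point over `L`, if `β = 0`): `x = s (t β + γ)` modulo
`W` -/
def OverLine {r : ℕ} {M : Type} [Field M] [Algebra ℂ M] (A : Fin r → Fin 6 → ℂ)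
    (L : IntermediateField ℂ M) (t : M) (x : Fin 6 → M) : Prop :=
  ∃ (s : M) (w : Fin r → M) (β γ : Fin 6 → L),
    ∀ i, x i = s * (t * (β i : M) + (γ i : M)) + ∑ l, w l * algebraMap ℂ M (A l i)

/-- there is a family of rational curves on `X = (F = 0)` over lines with respect to the projection
from `W`, with parameter field `L` and total space with the function field `M = L(t)`, whose degree
over the function field of `X` is odd -/
def OddFamilyOverLines {r : ℕ} (F : MvPolynomial (Fin 6) ℂ) (A : Fin r → Fin 6 → ℂ) : Prop :=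
  ∃ (M : Type) (_ : Field M) (_ : Algebra ℂ M) (L : IntermediateField ℂ M) (t : M)
    (x : Fin 6 → M), Transcendental L t ∧ IntermediateField.adjoin L {t} = ⊤ ∧
    GenericPoint F x ∧ Odd (Module.finrank (functionField x) M) ∧ OverLine A L t x

/-- there is a birational parametrization `(G_0(t), …, G_5(t))` of `X = (F = 0)` by polynomials in
four variables (a generic point of `X` whose ratios generate the field `ℂ(t_1, …, t_4)`) so that the
curves `(t_1, t_2, t_3) = const` lie over lines with respect to the projection from `W` -/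
def BirationalFamilyOverLines {r : ℕ} (F : MvPolynomial (Fin 6) ℂ) (A : Fin r → Fin 6 → ℂ) :
    Prop :=
  ∃ G : Fin 6 → MvPolynomial (Fin 4) ℂ,
    GenericPoint F (fun i => algebraMap (MvPolynomial (Fin 4) ℂ)
      (FractionRing (MvPolynomial (Fin 4) ℂ)) (G i)) ∧
    functionField (fun i => algebraMap (MvPolynomial (Fin 4) ℂ)
      (FractionRing (MvPolynomial (Fin 4) ℂ)) (G i)) = ⊤ ∧
    OverLine A (IntermediateField.adjoin ℂ ((fun i => algebraMap (MvPolynomial (Fin 4) ℂ)
      (FractionRing (MvPolynomial (Fin 4) ℂ)) (X i)) '' ({3}ᶜ : Set (Fin 4))))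
      (algebraMap (MvPolynomial (Fin 4) ℂ) (FractionRing (MvPolynomial (Fin 4) ℂ)) (X 3))
      (fun i => algebraMap (MvPolynomial (Fin 4) ℂ)
        (FractionRing (MvPolynomial (Fin 4) ℂ)) (G i))

/-- the projection of `F = 0` from the linear span `W` of the vectors `A_l` has a rational section:
for some vectors `e_0, e_1, e_2` which generate the space together with `W` there is a point
`l (e_0 + y_1 e_1 + y_2 e_2) + ∑ w_l A_l` of `F = 0` with `l`, `w_l` in `ℂ[y_1, y_2]`, `l ≠ 0` -/
def HasRationalSection {r : ℕ} (F : MvPolynomial (Fin 6) ℂ) (A : Fin r → Fin 6 → ℂ) : Prop :=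
  ∃ e : Fin 3 → Fin 6 → ℂ,
    Submodule.span ℂ (Set.range A) ⊔ Submodule.span ℂ (Set.range e) = ⊤ ∧
    ∃ (l : MvPolynomial (Fin 2) ℂ) (w : Fin r → MvPolynomial (Fin 2) ℂ), l ≠ 0 ∧
      aeval (fun i => l * (C (e 0 i) + X 0 * C (e 1 i) + X 1 * C (e 2 i)) +
        ∑ a, w a * C (A a i)) F = 0

/-- Published facts (Hassett): for each plane `P` of `X`, spanned by vectors `A_l`, the quadric
surface bundle given by the projection from `P` has a rational section if and only if
`T.(h - P)` is odd for some Hodge class `T` (`h - P` is the class of the quadric surfaces) -/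
def SectionCriterion {X : CubicFourfold} (H : H4 X) : Prop :=
  ∀ (P : X.Plane) (r : ℕ) (A : Fin r → Fin 6 → ℂ), Submodule.span ℂ (Set.range A) = P.1 →
    (HasRationalSection X.F A ↔ ∃ T, H.IsHodge T ∧ Odd (H.ip T (H.h - H.cl P)))

/-- `X` has a family of rational curves of odd degree over lines with respect to the projection
from some linear subspace of `X` -/
def OddLineRuled (X : CubicFourfold) : Prop :=
  ∃ (r : ℕ) (A : Fin r → Fin 6 → ℂ), SpanInside X.F A ∧ OddFamilyOverLines X.F A

/-- `X` has a birational parametrization by rational curves over lines with respect to the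
projection from some linear subspace of `X` -/
def BirationalLineRuled (X : CubicFourfold) : Prop :=
  ∃ (r : ℕ) (A : Fin r → Fin 6 → ℂ), SpanInside X.F A ∧ BirationalFamilyOverLines X.F A

/-- a plane `P` of `X` and a Hodge class `T` with `T.(h - P)` odd -/
def HasOddClass {X : CubicFourfold} (H : H4 X) : Prop :=
  ∃ (P : X.Plane) (T : Fin 23 → ℤ), H.IsHodge T ∧ Odd (H.ip T (H.h - H.cl P))

theorem classify (F : MvPolynomial (Fin 6) ℂ) (h3 : F.IsHomogeneous 3)
    (hsm : ∀ z : Fin 6 → ℂ, (∀ i, eval z (pderiv i F) = 0) → z = 0)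
    (r : ℕ) (A : Fin r → Fin 6 → ℂ) (hA : SpanInside F A) :
    List.TFAE [OddFamilyOverLines F A, BirationalFamilyOverLines F A,
      Module.finrank ℂ (Submodule.span ℂ (Set.range A)) = 3 ∧ HasRationalSection F A] := by
  tfae_have 1 → 3 := by
    rintro ⟨M, _, _, L, t, x, ht, hM, hx, hodd, s, w, β, γ, h⟩
    exact Pool.Agent.R845.CL.sect_of_family A h3 hsm hA L t ht hM x hx hodd s w
      (fun i => (β i : M)) (fun i => (γ i : M)) (fun i => (β i).2) (fun i => (γ i).2) h
  tfae_have 3 → 2 := by
    rintro ⟨hr, hS⟩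
    obtain ⟨G, h1, h2, s, w, β, γ, hβ, hγ, h⟩ :=
      Pool.Agent.R845.CL.family_of_sect A h3 hsm hA hr hS
    exact ⟨G, h1, h2, s, w, fun i => ⟨β i, hβ i⟩, fun i => ⟨γ i, hγ i⟩, h⟩
  tfae_have 2 → 1 := by
    rintro ⟨G, h1, h2, h⟩
    refine ⟨FractionRing (MvPolynomial (Fin 4) ℂ), inferInstance, inferInstance, _, _, _,
      Pool.Agent.R845.CL.io_trans, Pool.Agent.R845.CL.adjoin_L3, h1, ?_, h⟩
    rw [h2, IntermediateField.finrank_top]
    exact odd_one
  tfae_finish

theorem sm (X : CubicFourfold) : ∀ z : Fin 6 → ℂ, (∀ i, eval z (pderiv i X.F) = 0) → z = 0 := by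
  intro z hz
  by_contra h0
  obtain ⟨i, hi⟩ := X.smooth z h0
  exact hi (hz i)

/-- the plane given by generators -/
theorem exists_plane {X : CubicFourfold} {r : ℕ} {A : Fin r → Fin 6 → ℂ} (hA : SpanInside X.F A)
    (h3 : Module.finrank ℂ (Submodule.span ℂ (Set.range A)) = 3) :
    ∃ P : X.Plane, P.1 = Submodule.span ℂ (Set.range A) := by
  refine ⟨⟨Submodule.span ℂ (Set.range A), h3, fun x hx => ?_⟩, rfl⟩
  obtain ⟨a, rfl⟩ := (Submodule.mem_span_range_iff_exists_fun ℂ).1 hx
  have h := hA a
  have e : (fun i => ∑ l, a l * A l i) = ∑ l, a l • A l := by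
    funext i
    simp [Finset.sum_apply]
  rwa [e] at h

theorem exists_gen {X : CubicFourfold} (P : X.Plane) : ∃ A : Fin 3 → Fin 6 → ℂ,
    Submodule.span ℂ (Set.range A) = P.1 ∧ SpanInside X.F A := by
  obtain ⟨W, h3, hW⟩ := P
  let b := Module.finBasisOfFinrankEq ℂ W h3
  have hs : Submodule.span ℂ (Set.range fun i => (b i : Fin 6 → ℂ)) = W := by
    have h1 : (Set.range fun i => (b i : Fin 6 → ℂ)) = W.subtype '' Set.range b := by
      rw [← Set.range_comp]
      rfl
    rw [h1, ← Submodule.map_span, b.span_eq, Submodule.map_top, Submodule.range_subtype]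
  refine ⟨fun i => (b i : Fin 6 → ℂ), hs, fun a => ?_⟩
  have e : (fun i => ∑ l, a l * (b l : Fin 6 → ℂ) i) = ∑ l, a l • (b l : Fin 6 → ℂ) := by
    funext i
    simp [Finset.sum_apply]
  rw [e]
  exact hW _ (Submodule.sum_mem _ fun l _ => Submodule.smul_mem _ _ (b l).2)

theorem main {X : CubicFourfold} {H : H4 X} (hS : SectionCriterion H) :
    List.TFAE [OddLineRuled X, BirationalLineRuled X, HasOddClass H] := by
  tfae_have 1 → 3 := by
    rintro ⟨r, A, hA, h⟩
    obtain ⟨h3, hs⟩ := ((classify X.F X.cubic (sm X) r A hA).out 0 2).1 h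
    obtain ⟨P, hP⟩ := exists_plane hA h3
    obtain ⟨T, hT⟩ := (hS P r A hP.symm).1 hs
    exact ⟨P, T, hT⟩
  tfae_have 3 → 2 := by
    rintro ⟨P, T, hT⟩
    obtain ⟨A, hAP, hA⟩ := exists_gen P
    have hs := (hS P 3 A hAP).2 ⟨T, hT⟩
    have h3 : Module.finrank ℂ (Submodule.span ℂ (Set.range A)) = 3 := by
      rw [hAP]
      exact P.2.1
    have hc := (classify X.F X.cubic (sm X) 3 A hA).out 2 1
    exact ⟨3, A, hA, hc.1 ⟨h3, hs⟩⟩
  tfae_have 2 → 1 := by
    rintro ⟨r, A, hA, h⟩
    exact ⟨r, A, hA, ((classify X.F X.cubic (sm X) r A hA).out 1 0).1 h⟩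
  tfae_finish

/-- an odd class and a plane -/
theorem odd_bb_iff {X : CubicFourfold} {H : H4 X} (hH : H.IsCohomology) (P : X.Plane)
    (v : Fin 23 → ℤ) : Odd (bb H (H.cl P) v) ↔ Odd (H.ip v (H.h - H.cl P)) := by
  refine ⟨odd_of_odd_bb hH P, fun h => ?_⟩
  have hp := isPl_cl hH P
  have h1 : H.ip H.h (H.cl P) = 1 := (hH.comm _ _).trans hp.2.1
  simp only [bb, h1, one_mul]
  rw [ip_sub_right, hH.comm v H.h, hH.comm v (H.cl P)] at h
  have h2 : 3 * H.ip (H.cl P) v - H.ip H.h v = (H.ip H.h v - H.ip (H.cl P) v) +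
    2 * (2 * H.ip (H.cl P) v - H.ip H.h v) := by ring
  rw [h2]
  exact h.add_even (even_two_mul _)

theorem hilb_of_odd {X : CubicFourfold} {H : H4 X} (hH : H.IsCohomology) (h : HasOddClass H) :
    HasHilbertSquare H := by
  obtain ⟨P, T, hT, ho⟩ := h
  exact (of_odd hH P hT ((odd_bb_iff hH P T).2 ho)).2

/-- if `A(X)` is generated by the planes and a group of classes with discriminants divisible by
four, then an associated K3 surface gives an odd class -/
theorem odd_of_K3 {X : CubicFourfold} {H : H4 X} (hH : H.IsCohomology)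
    (N : AddSubgroup (Fin 23 → ℤ)) (hN : ∀ v ∈ N, H.IsHodge v ∧ 4 ∣ H.disc v)
    (hgen : ∀ v, H.IsHodge v → v ∈ AddSubgroup.closure (insert H.h (Set.range H.cl)) ⊔ N)
    (hK : H.HasK3) : HasOddClass H := by
  obtain ⟨v, hv, -, -, h4, -⟩ := hK
  by_contra hcon
  have hev : ∀ (P : X.Plane) (T : Fin 23 → ℤ), H.IsHodge T → Even (bb H (H.cl P) T) := by
    intro P T hT
    rw [← Int.not_odd_iff_even]
    intro ho
    exact hcon ⟨P, T, hT, (odd_bb_iff hH P T).1 ho⟩
  have key : ∀ p ∈ AddSubgroup.closure (insert H.h (Set.range H.cl)),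
      H.IsHodge p ∧ 4 ∣ H.disc p ∧ ∀ T, H.IsHodge T → Even (bb H p T) := by
    intro p hp
    induction hp using AddSubgroup.closure_induction with
    | mem x hx =>
      rcases hx with rfl | ⟨P, rfl⟩
      · refine ⟨hH.h_hodge, ?_, fun T _ => ?_⟩
        · have : H.disc H.h = 0 := by
            simp only [H4.disc, hH.h_self]
            norm_num
          rw [this]
          exact dvd_zero _
        · have : bb H H.h T = 0 := by
            simp only [bb, hH.h_self]
            ring
          rw [this]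
          exact Even.zero
      · refine ⟨(isPl_cl hH P).1, ?_, hev P⟩
        rw [disc_plane hH]
        norm_num
    | zero =>
      refine ⟨?_, ?_, fun T _ => ?_⟩
      · have h := H.isHodge_smul 0 hH.h_hodge
        rwa [zero_smul] at h
      · have h := disc_lin hH 0 0 H.h H.h
        simp only [zero_smul, add_zero] at h
        rw [h]
        norm_num
      · have h := bb_comb_left (H := H) 0 0 H.h H.h T
        simp only [zero_smul, add_zero] at h
        rw [h]
        norm_num
    | add x y _ _ hx hy =>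
      obtain ⟨hx1, hx2, hx3⟩ := hx
      obtain ⟨hy1, hy2, hy3⟩ := hy
      refine ⟨H.isHodge_add hx1 hy1, ?_, fun T hT => ?_⟩
      · have h := disc_lin hH 1 1 x y
        simp only [one_smul] at h
        rw [h]
        obtain ⟨a, ha⟩ := hx2
        obtain ⟨b, hb⟩ := hy2
        obtain ⟨c, hc⟩ := hx3 y hy1
        rw [ha, hb, hc]
        exact ⟨a + b + c, by ring⟩
      · have h := bb_comb_left (H := H) 1 1 x y T
        simp only [one_smul, one_mul] at h
        rw [h]
        exact (hx3 T hT).add (hy3 T hT)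
    | neg x _ hx =>
      obtain ⟨hx1, hx2, hx3⟩ := hx
      refine ⟨H.isHodge_neg hx1, ?_, fun T hT => ?_⟩
      · have h := disc_lin hH (-1) 0 x x
        simp only [neg_smul, one_smul, zero_smul, add_zero] at h
        rw [h]
        obtain ⟨a, ha⟩ := hx2
        exact ⟨a, by rw [ha]; ring⟩
      · have h := bb_comb_left (H := H) (-1) 0 x x T
        simp only [neg_smul, one_smul, zero_smul, add_zero] at h
        rw [h]
        simpa using hx3 T hT
  obtain ⟨p, hp, n, hn, rfl⟩ := AddSubgroup.mem_sup.1 (hgen v hv)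
  obtain ⟨hp1, hp2, hp3⟩ := key p hp
  obtain ⟨hn1, hn2⟩ := hN n hn
  apply h4
  have h := disc_lin hH 1 1 p n
  simp only [one_smul] at h
  rw [h]
  obtain ⟨a, ha⟩ := hp2
  obtain ⟨b, hb⟩ := hn2
  obtain ⟨c, hc⟩ := hp3 n hn1
  rw [ha, hb, hc]
  exact ⟨a + b + c, by ring⟩

/-- two planes with an odd form have the intersection number zero, if they are different -/
theorem ip_zero {X : CubicFourfold} {H : H4 X} (hH : H.IsCohomology) (P P' : X.Plane)
    (h : Odd (bb H (H.cl P) (H.cl P'))) : H.ip (H.cl P) (H.cl P') = 0 := by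
  have hp := isPl_cl hH P
  have hp' := isPl_cl hH P'
  have h1 : H.ip H.h (H.cl P) = 1 := (hH.comm _ _).trans hp.2.1
  have h1' : H.ip H.h (H.cl P') = 1 := (hH.comm _ _).trans hp'.2.1
  have hc : H.ip (H.cl P') (H.cl P) = H.ip (H.cl P) (H.cl P') := hH.comm _ _
  set m := H.ip (H.cl P) (H.cl P') with hm
  have ho : Odd (3 * m - 1) := by
    have h2 : bb H (H.cl P) (H.cl P') = 3 * m - 1 := by
      simp only [bb, h1, h1', ← hm]
      ring
    rwa [h2] at h
  -- the square of the difference
  have hd : H.ip (H.cl P - H.cl P') (H.cl P - H.cl P') = 6 - 2 * m := by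
    rw [ip_sub_left, ip_sub_right, ip_sub_right, hp.2.2, hp'.2.2, hc, ← hm]
    ring
  have hdh : H.ip (H.cl P - H.cl P') H.h = 0 := by
    rw [ip_sub_left, hp.2.1, hp'.2.1]
    ring
  have hdH := H.isHodge_sub hp.1 hp'.1
  have h6 := hH.disc_six _ hdH hdh
  have hnn := hH.nonneg hdH
  rw [hd] at h6 hnn
  -- the square of `h - P - P'`
  have he : H.ip (H.h - H.cl P - H.cl P') (H.h - H.cl P - H.cl P') = 5 + 2 * m := by
    simp only [ip_sub_left, ip_sub_right, hp.2.1, hp'.2.1, h1, h1', hp.2.2, hp'.2.2, hc, ← hm,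
      hH.h_self]
    ring
  have heh : H.ip (H.h - H.cl P - H.cl P') H.h = 1 := by
    simp only [ip_sub_left, hp.2.1, hp'.2.1, hH.h_self]
    ring
  have heH := H.isHodge_sub (H.isHodge_sub hH.h_hodge hp.1) hp'.1
  have h2 := hH.disc_two _ heH heh
  have hnn' := hH.nonneg heH
  rw [he] at h2 hnn'
  obtain ⟨k, hk⟩ := ho
  have hm3 : m ≠ 3 := by omega
  omega

/-- if `A(X)` is generated by `h` and the planes, an odd class gives two planes with
intersection number zero -/
theorem disjoint_of_odd {X : CubicFourfold} {H : H4 X} (hH : H.IsCohomology)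
    (hgen : ∀ v, H.IsHodge v → v ∈ AddSubgroup.closure (insert H.h (Set.range H.cl)))
    (h : HasOddClass H) : ∃ P P' : X.Plane, H.ip (H.cl P) (H.cl P') = 0 := by
  obtain ⟨P, T, hT, ho⟩ := h
  by_contra hcon
  push Not at hcon
  have hev : ∀ P' : X.Plane, Even (bb H (H.cl P) (H.cl P')) := by
    intro P'
    rw [← Int.not_odd_iff_even]
    intro h1
    exact hcon P P' (ip_zero hH P P' h1)
  have key : ∀ p ∈ AddSubgroup.closure (insert H.h (Set.range H.cl)),
      Even (bb H (H.cl P) p) := by
    intro p hp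
    induction hp using AddSubgroup.closure_induction with
    | mem x hx =>
      rcases hx with rfl | ⟨P', rfl⟩
      · have : bb H (H.cl P) H.h = 0 := by
          simp only [bb, hH.h_self, hH.comm (H.cl P) H.h]
          ring
        rw [this]
        exact Even.zero
      · exact hev P'
    | zero =>
      have h := bb_comb_left (H := H) 0 0 H.h H.h (H.cl P)
      simp only [zero_smul, add_zero] at h
      rw [bb_comm hH, h]
      norm_num
    | add x y _ _ hx hy =>
      have h := bb_comb_left (H := H) 1 1 x y (H.cl P)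
      simp only [one_smul, one_mul] at h
      rw [bb_comm hH, h, bb_comm hH x, bb_comm hH y]
      exact hx.add hy
    | neg x _ hx =>
      have h := bb_comb_left (H := H) (-1) 0 x x (H.cl P)
      simp only [neg_smul, one_smul, zero_smul, add_zero] at h
      rw [bb_comm hH, h, bb_comm hH x]
      simpa using hx
  have h1 := key T (hgen T hT)
  rw [← Int.not_odd_iff_even] at h1
  exact h1 ((odd_bb_iff hH P T).2 ho)

theorem odd_of_disjoint {X : CubicFourfold} {H : H4 X} (hH : H.IsCohomology) {P P' : X.Plane}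
    (h : H.ip (H.cl P) (H.cl P') = 0) : HasOddClass H := by
  refine ⟨P, H.cl P', (isPl_cl hH P').1, ?_⟩
  rw [ip_sub_right, (isPl_cl hH P').2.1, hH.comm (H.cl P'), h]
  norm_num

end Pool.Agent.R845.CL.Stm
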